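import Pool.Agent.H.MP_cba12a_lc.CodegDefs
import Pool.Agent.H.MP_cba12a_lc.Clock6
import Pool.Agent.H.MP_cba12a_lc.Num6
import Pool.Agent.H.MP_cba12a_lc.S10.Cand10
import Pool.Agent.H.MP_cba12a_lc.S10.Wt10

/-!
# DNF formulas in which any `t + 1` variables occur together in at most `d` terms

For all constants `t` and `d`, one algorithm learns, from uniform random labelled examples only,
all (not necessarily unate) DNF formulas with any number of terms in which any `t + 1` variables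
occur together in at most `d` terms, in time `n ^ O (log (1 / ε))`, that is, in polynomial time for
constant `ε`. For `d = 1` these are the formulas of which any two terms have at most `t` variables
in common, for `t = 0` those in which every variable occurs in at most `d` terms.
-/

namespace Pool.Agent.Results.MP_cba12a_lc.CodegreeDNF

open Pool.Agent.H.MP_5be563_lc.PT Pool.Agent.H.MP_cba12a_lc

@[fun_prop]
theorem poly_pow {α : Type} [Enc α] {f : α → ℕ} (hf : Poly f) (k : ℕ) :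
    Poly (fun a => f a ^ k) := by
  induction k with
  | zero =>
    simp only [pow_zero]
    fun_prop
  | succ k ih =>
    simp only [pow_succ]
    fun_prop

/-- bound for the numbers of conditions and of excluding literals -/
def tz (t d : ℕ) : ℕ := t + Mx10 t d

/-- exponent of the constant factor of the precision -/
def kz (t d : ℕ) : ℕ := kx10 t d + tz t d

/-- bound for the number of long terms -/
def VV (t d n : ℕ) : ℕ := (d + 1) * (n + 1) ^ (t + 1)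

/-- inverse of the precision -/
def MZ (t d n a : ℕ) : ℕ := 2 ^ (kz t d + 30) * a ^ 3 * WW (tz t d) a * VV t d n

/-- inverse of the least gain in the greedy cover -/
def BZ (t d n a : ℕ) : ℕ := 16 * a * WW (tz t d) a * VV t d n

/-- bound on the sizes of all lists, where `T = (n + 1) ^ r` -/
def NZ (t d n a T : ℕ) : ℕ := (2 * n + 1) ^ (kz t d + 1) * WW (tz t d) a * T ^ 2

/-- the learner, with the value `T = (n + 1) ^ r` as a further argument -/
def learnT (t d : ℕ) (p : (ℕ × ℕ × ℕ × Samples) × ℕ) : List (List Lit) :=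
  core10 (16 * p.1.2.2.1) (16 * p.1.2.2.1) (BZ t d p.1.1 p.1.2.2.1)
    (2 * BZ t d p.1.1 p.1.2.2.1) (NZ t d p.1.1 p.1.2.2.1 p.2) (tz t d + 1)
    (JJ6 (tz t d) p.1.2.2.1) p.1.2.1 (kx10 t d) (Mx10 t d) (256 * p.1.2.2.1) p.1.1 p.1.2.2.2

theorem poly_learnT (t d : ℕ) : Poly (learnT t d) := by
  unfold learnT
  have hW : Poly (fun p : (ℕ × ℕ × ℕ × Samples) × ℕ => WW (tz t d) p.1.2.2.1) := by
    unfold WW
    fun_prop
  have hV : Poly (fun p : (ℕ × ℕ × ℕ × Samples) × ℕ => VV t d p.1.1) := by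
    unfold VV
    fun_prop
  have hB : Poly (fun p : (ℕ × ℕ × ℕ × Samples) × ℕ => BZ t d p.1.1 p.1.2.2.1) := by
    unfold BZ
    fun_prop
  have hN : Poly (fun p : (ℕ × ℕ × ℕ × Samples) × ℕ => NZ t d p.1.1 p.1.2.2.1 p.2) := by
    unfold NZ
    fun_prop
  have hJ : Poly (fun p : (ℕ × ℕ × ℕ × Samples) × ℕ => JJ6 (tz t d) p.1.2.2.1) := by
    unfold JJ6
    fun_prop
  exact poly_core10 (kx10 t d) (Mx10 t d) (by fun_prop) (by fun_prop) hB (by fun_prop) hN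
    (by fun_prop) hJ (by fun_prop) (by fun_prop) (by fun_prop) (by fun_prop)

/-- the learner -/
def learn (t d : ℕ) (p : ℕ × ℕ × ℕ × Samples) : List (List Lit) :=
  learnT t d (p, (p.1 + 1) ^ p.2.1)

open Polynomial in
/-- the polynomial for `MZ` -/
noncomputable def MP (t d : ℕ) : Polynomial ℕ :=
  2 ^ (kz t d + 30) * X ^ 3 * (32 * X) ^ ((tz t d + 1) * 2 ^ (tz t d + 1)) *
    ((C d + 1) * (X + 1) ^ (t + 1))

open Polynomial in
/-- the polynomial for the number of samples -/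
noncomputable def QP (t d : ℕ) : Polynomial ℕ := 4 * MP t d ^ 3 * (2 * X + 2)

theorem eval_MP (t d x : ℕ) : (MP t d).eval x = MZ t d x x := by
  unfold MP MZ WW VV
  simp

theorem eval_QP (t d x : ℕ) : (QP t d).eval x = 4 * MZ t d x x ^ 3 * (2 * x + 2) := by
  unfold QP
  rw [← eval_MP]
  simp

theorem MZ_mono {t d n a n' a' : ℕ} (hn : n ≤ n') (ha : a ≤ a') :
    MZ t d n a ≤ MZ t d n' a' := by
  unfold MZ VV
  have := WW_mono (t := tz t d) ha
  gcongr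

theorem mu_errE_eq {n : ℕ} (f : (Fin n → Bool) → Bool) (H : List (List Lit)) :
    mu (errE f H) = err f H := by
  unfold mu err ct
  rw [Fintype.card_fun, Fintype.card_fin, Fintype.card_bool]
  push_cast
  congr 2
  refine congrArg Finset.card ?_
  ext x
  simp only [Finset.mem_filter, Finset.mem_univ, true_and, errE_iff]
  exact ne_comm

theorem half_pow_le (M : ℕ) (hM : 1 ≤ M) (c : ℕ) : (1 - 1 / (M : ℝ)) ^ (M * c) ≤ (1 / 2) ^ c := by
  have hM' : (1 : ℝ) ≤ M := by exact_mod_cast hM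
  rw [pow_mul]
  have h0 : (0 : ℝ) ≤ 1 - 1 / M := by
    have : 1 / (M : ℝ) ≤ 1 := by
      rw [div_le_one (by positivity)]
      exact hM'
    linarith
  refine pow_le_pow_left₀ (by positivity) ?_ c
  have h1 : 1 - 1 / (M : ℝ) ≤ Real.exp (-(1 / M)) := by
    have := Real.add_one_le_exp (-(1 / (M : ℝ)))
    linarith
  calc (1 - 1 / (M : ℝ)) ^ M ≤ Real.exp (-(1 / M)) ^ M := pow_le_pow_left₀ h0 h1 M
    _ = Real.exp (-1) := by
        rw [← Real.exp_nat_mul]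
        congr 1
        field_simp
    _ ≤ 1 / 2 := by
        rw [Real.exp_neg, ← one_div]
        refine one_div_le_one_div_of_le (by norm_num) ?_
        have := Real.add_one_le_exp (1 : ℝ)
        linarith

theorem two_add_le_pow (t : ℕ) : t + 2 ≤ 2 ^ (t + 1) := Nat.lt_two_pow_self

open Classical in
theorem main (t d C e C1 : ℕ) (hd : 1 ≤ d)
    (hCe : ∀ (n K0 : ℕ) (κ : ℝ) (X : Finset (Fin n)) (G : Finset (Finset (Fin n × Bool))),
      t + 1 ≤ K0 → Fam10 t d K0 κ X G → tW G ≤ C * (1 / κ) ^ e)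
    (hC1 : ∀ (n lam E0 : ℕ) (δ : ℝ)
      (G Gs : Finset (Finset (Fin n × Bool))) (Y : Finset (Fin n)),
      (∀ T ∈ G, (vs T).card = T.card) → Codeg t d G → Gs ⊆ G → Y.card = kx10 t d →
      (∀ j ∈ Y, dg G j ≤ δ) → 2 ^ t * (kx10 t d : ℝ) * δ ≤ 1 → E0 ≤ 4 * (2 * t + 3) * lam →
      (∀ A ∈ Gs, (vs A ∩ Y).Nonempty → lam ≤ A.card ∧ (vs A ∩ Y).card ≤ t + 1) →
      mu (fun x => decide (∀ j ∈ Y, ∃ A ∈ Gs, j ∈ vs A ∧ SatT (outs Y A) x)) ≤
        C1 * ((2 ^ t * (kx10 t d : ℝ) * δ) ^ (t + 2) + (2 / 3) ^ E0))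
    (n r a b m ℓ ℓ0 : ℕ) (f g : (Fin n → Bool) → Bool) (ha : 1 ≤ a) (hb : 1 ≤ b)
    (hpa : ∀ ℓ : ℕ, ℓ0 ≤ ℓ → t ≤ ℓ / Th10 t d ∧
      kx10 t d + kx10 t d ^ (t + 1) * (d * (ℓ / Th10 t d)) + t + Mx10 t d ≤ ℓ ∧
      2 ^ t * (kx10 t d : ℝ) * del10 t ℓ ≤ 1 ∧ 4 * ℓ ≤ 4 * (2 * t + 3) * (2 * q10 t ℓ) ∧
      1 ≤ ℓ)
    (hps : ∀ ℓ : ℕ, ℓ0 ≤ ℓ → 2 ^ (Mx10 t d + 1) * del10 t ℓ *
      (2 ^ t * (ℓ : ℝ) + 2 ^ (ℓ / Th10 t d) * (d * (ℓ : ℝ) ^ (t + 1))) ≤ 1 / (64 * a))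
    (hpn : ∀ ℓ : ℕ, ℓ0 ≤ ℓ →
      C1 * ((2 ^ t * (kx10 t d : ℝ) * del10 t ℓ) ^ (t + 2) + (2 / 3) ^ (4 * ℓ)) ≤
        (1 / 2) ^ ℓ * (1 / (2 ^ 16 * a ^ 2 * 2 ^ Mx10 t d)))
    (hpb : ∀ ℓ : ℕ, ℓ0 ≤ ℓ →
      d * (6 * d * (t + 1) * (ℓ : ℝ) * (Bd9 C e a : ℕ) / del10 t ℓ) ^ (t + 1) * (1 / 2) ^ ℓ ≤
        1 / (16 * a) / ((ℓ : ℝ) * (ℓ + 1)) ∧ (ℓ : ℝ) * (Bd9 C e a : ℕ) ≤ 2 ^ ℓ)
    (hℓ : ℓ0 + (tz t d + 1) * JJ6 (tz t d) a ≤ ℓ) (hg : CodegDNF t d r ℓ g)
    (hfg : (QP t d).eval (n + a) * (Finset.univ.filter fun x => f x ≠ g x).card ≤ 2 ^ n)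
    (hm : (QP t d).eval (n + a + Nat.clog 2 b) ≤ m) :
    (1 - 1 / (b : ℝ)) * ((2 : ℝ) ^ n) ^ m ≤
      ((Finset.univ.filter fun ω : Fin m → Fin n → Bool =>
        err f (learn t d (n, r, a, smp f ω)) ≤ 1 / (a : ℝ)).card : ℝ) := by
  have ha' : (1 : ℝ) ≤ a := by exact_mod_cast ha
  have hn0 : (0 : ℝ) ≤ n := by positivity
  obtain ⟨M, hM⟩ : ∃ M, M = MZ t d n a := ⟨_, rfl⟩
  obtain ⟨W, hW⟩ : ∃ W, W = WW (tz t d) a := ⟨_, rfl⟩
  obtain ⟨B, hB⟩ : ∃ B, B = BZ t d n a := ⟨_, rfl⟩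
  obtain ⟨J, hJ⟩ : ∃ J, J = JJ6 (tz t d) a := ⟨_, rfl⟩
  obtain ⟨K, hK⟩ : ∃ K, K = tz t d + 1 := ⟨_, rfl⟩
  obtain ⟨k, hk⟩ : ∃ k, k = kz t d := ⟨_, rfl⟩
  obtain ⟨V, hV⟩ : ∃ V, V = VV t d n := ⟨_, rfl⟩
  have hV1 : 1 ≤ V := by
    rw [hV]
    unfold VV
    exact Nat.succ_le_of_lt (by positivity)
  have hW1 : 1 ≤ W := by rw [hW]; unfold WW; exact Nat.one_le_pow _ _ (by omega)
  have hMe : M = 2 ^ (k + 30) * a ^ 3 * W * V := by rw [hM, hW, hV, hk]; rfl
  have hBe : B = 16 * a * W * V := by rw [hB, hW, hV]; rfl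
  have hWe : W = (32 * a) ^ (K * 2 ^ K) := by rw [hW, hK]; rfl
  have hJe : J = 2 ^ K * Nat.clog 2 (16 * a) := by rw [hJ, hK]; rfl
  have hke : k = kx10 t d + tz t d := hk
  have hMeR : (M : ℝ) = 2 ^ (k + 30) * a ^ 3 * W * V := by rw [hMe]; push_cast; ring
  have hBeR : (B : ℝ) = 16 * a * W * V := by rw [hBe]; push_cast; ring
  have hW1' : (1 : ℝ) ≤ W := by exact_mod_cast hW1
  have hV1' : (1 : ℝ) ≤ V := by exact_mod_cast hV1
  have hRM : 2 * B + 2 ≤ M := by rw [hBe, hMe]; exact num6_RM ha hW1 hV1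
  have hM0 : 0 < M := by omega
  have hB0 : 0 < B := by rw [hBe]; positivity
  have hM0' : (0 : ℝ) < M := by exact_mod_cast hM0
  have hB0' : (0 : ℝ) < B := by exact_mod_cast hB0
  rw [eval_QP] at hfg hm
  have hm1 : 4 * M ^ 3 * (2 * n + 2 + Nat.clog 2 b) ≤ m := by
    refine le_trans ?_ hm
    have h1 : M ≤ MZ t d (n + a + Nat.clog 2 b) (n + a + Nat.clog 2 b) := by
      rw [hM]; exact MZ_mono (by omega) (by omega)
    exact Nat.mul_le_mul (Nat.mul_le_mul_left _ (Nat.pow_le_pow_left h1 3)) (by omega)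
  have hm0 : 0 < m := by
    have h1 : 0 < 4 * M ^ 3 := by
      have := Nat.pow_pos (n := 3) hM0
      omega
    have h2 := Nat.mul_pos h1 (show 0 < 2 * n + 2 + Nat.clog 2 b by omega)
    omega
  obtain ⟨τ, hτ⟩ : ∃ τ : ℝ, τ = 1 / M := ⟨_, rfl⟩
  have hτ0 : 0 < τ := by rw [hτ]; positivity
  -- the target
  obtain ⟨F, hgF0, hcodeg0, hlen0⟩ := hg
  have hgF : ∀ x, g x = true ↔ ∃ T ∈ F, SatT T x := hgF0
  have hcodeg : Codeg t d F := by
    intro S hS
    refine le_trans (le_of_eq (congrArg Finset.card ?_)) (hcodeg0 S hS)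
    exact Finset.filter_congr fun T _ => Iff.rfl
  have hdst : dst f g ≤ τ := by
    rw [hτ]
    unfold dst
    rw [div_le_div_iff₀ (by positivity) (by positivity), one_mul]
    have h1 : M ≤ MZ t d (n + a) (n + a) := by rw [hM]; exact MZ_mono (by omega) (by omega)
    have h2 : M ≤ 4 * MZ t d (n + a) (n + a) ^ 3 * (2 * (n + a) + 2) := by
      calc M ≤ MZ t d (n + a) (n + a) := h1
        _ ≤ MZ t d (n + a) (n + a) ^ 3 := Nat.le_self_pow (by norm_num) _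
        _ ≤ 4 * MZ t d (n + a) (n + a) ^ 3 := Nat.le_mul_of_pos_left _ (by norm_num)
        _ ≤ _ := Nat.le_mul_of_pos_right _ (by omega)
    have h3 := (Nat.mul_le_mul_right (Finset.univ.filter fun x => f x ≠ g x).card h2).trans hfg
    have h4 : (M : ℝ) * ((Finset.univ.filter fun x => f x ≠ g x).card : ℝ) ≤ 2 ^ n := by
      exact_mod_cast h3
    linarith
  have hmm : (4 : ℝ) * (M : ℝ) ^ 3 * (2 * n + 2 + Nat.clog 2 b) ≤ m := by exact_mod_cast hm1
  have hRM' : (2 * (B : ℝ) + 2) ≤ M := by exact_mod_cast hRM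
  clear hfg hm
  refine rep_of_large f (2 * B) b hb τ hτ0 ?_ ?_ _ ?_
  · rw [hτ, div_le_one hM0']
    exact_mod_cast hM0
  · rw [hτ]
    push_cast
    exact num6_m hM0' hRM' hB0'.le hn0 (by positivity) hmm
  intro ω hω
  rw [← mu_errE_eq]
  obtain ⟨L1, hL1⟩ : ∃ L1, L1 = Nat.clog 2 (16 * a * V) := ⟨_, rfl⟩
  obtain ⟨N, hN⟩ : ∃ N, N = NZ t d n a ((n + 1) ^ r) := ⟨_, rfl⟩
  have hlearn : learn t d (n, r, a, smp f ω) =
      core10 (16 * a) (16 * a) B (2 * B) N K J r (kx10 t d) (Mx10 t d) (256 * a) n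
        (smp f ω) := by
    rw [hB, hN, hJ, hK]; rfl
  rw [hlearn]
  rw [← hJ, ← hK] at hℓ
  have hNe : N = (2 * n + 1) ^ (k + 1) * W * ((n + 1) ^ r) ^ 2 := by
    rw [hN, hk, hW]; rfl
  have hKe : K = t + Mx10 t d + 1 := hK
  have hVe : V = (d + 1) * (n + 1) ^ (t + 1) := hV
  clear hM hW hB hJ hk hN hlearn hV
  have hclog16 : 2 ^ Nat.clog 2 (16 * a) ≤ 32 * a := by
    have := two_pow_clog_le (16 * a) (by omega)
    omega
  have hWJ2 : 2 ^ (K * J) ≤ W := by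
    have h1 : 2 ^ (K * J) = (2 ^ Nat.clog 2 (16 * a)) ^ (K * 2 ^ K) := by
      rw [← pow_mul]
      congr 1
      rw [hJe]
      ring
    rw [h1, hWe]
    exact Nat.pow_le_pow_left hclog16 _
  have hWJ1 : (K + 1) ^ J ≤ W := by
    refine le_trans ?_ hWJ2
    rw [pow_mul]
    refine Nat.pow_le_pow_left ?_ J
    rw [hK]
    exact two_add_le_pow (tz t d)
  have hT1 : 1 ≤ (n + 1) ^ r := Nat.one_le_pow _ _ (by omega)
  have h2n : 1 ≤ (2 * n + 1) ^ (k + 1) := Nat.one_le_pow _ _ (by omega)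
  have hT2 : 1 ≤ ((n + 1) ^ r) ^ 2 := Nat.one_le_pow _ _ hT1
  have hWN : W ≤ N := by
    rw [hNe]
    calc W ≤ (2 * n + 1) ^ (k + 1) * W := Nat.le_mul_of_pos_left _ h2n
      _ ≤ _ := Nat.le_mul_of_pos_right _ hT2
  have hpN : ∀ q ≤ k + 1, (2 * n + 1) ^ q ≤ N := by
    intro q hq
    rw [hNe]
    calc (2 * n + 1) ^ q ≤ (2 * n + 1) ^ (k + 1) := Nat.pow_le_pow_right (by omega) hq
      _ ≤ (2 * n + 1) ^ (k + 1) * W := Nat.le_mul_of_pos_right _ hW1
      _ ≤ _ := Nat.le_mul_of_pos_right _ hT2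
  have hN3 : (2 * n + 1) ^ r ≤ N := by
    rw [hNe]
    have h1 : 2 * n + 1 ≤ (n + 1) ^ 2 := by rw [add_sq]; omega
    calc (2 * n + 1) ^ r ≤ ((n + 1) ^ 2) ^ r := Nat.pow_le_pow_left h1 r
      _ = ((n + 1) ^ r) ^ 2 := by rw [← pow_mul, ← pow_mul, mul_comm]
      _ ≤ _ := Nat.le_mul_of_pos_left _ (Nat.mul_pos h2n hW1)
  have hVn : (d : ℝ) * (n : ℝ) ^ (t + 1) ≤ V := by
    rw [hVe]; push_cast
    exact mul_le_mul (by linarith) (pow_le_pow_left₀ hn0 (by linarith) _) (by positivity)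
      (by positivity)
  have h2L1 : (2 : ℝ) ^ L1 ≤ 32 * a * V := by
    have h1 := two_pow_clog_le (16 * a * V) (Nat.succ_le_of_lt (by positivity))
    rw [← hL1] at h1
    have h2 : ((2 ^ L1 : ℕ) : ℝ) ≤ ((2 * (16 * a * V) : ℕ) : ℝ) := by exact_mod_cast h1
    push_cast at h2
    linarith
  have h2L1' : 16 * a * V ≤ (2 : ℝ) ^ L1 := by
    have h1 : 16 * a * V ≤ 2 ^ L1 := by rw [hL1]; exact Nat.le_pow_clog (by norm_num) _
    exact_mod_cast h1
  have htz : tz t d = t + Mx10 t d := rfl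
  have hkx : kx10 t d ≤ k := by omega
  have hrep0 : Rep f ω 0 τ := fun v C h hC hr hh => hω v C h hC (hr.trans (Nat.zero_le _)) hh
  have htwo : (2 : ℝ) ^ kx10 t d * 2 ^ Mx10 t d ≤ 2 ^ k := by
    rw [← pow_add]
    exact pow_le_pow_right₀ (by norm_num) (by omega)
  refine core10_error (L1 := L1) (ℓ0 := ℓ0) (W := W) (δ := del10 t) hm0 ha hτ0 hgF hcodeg
    (by omega) hdst hω (hpN _ (by omega)) (hWJ1.trans hWN) hWJ1 hWJ2 ?_ hB0 ?_ ?_ ?_ ?_ ?_ ?_ ?_
  · -- unfinished part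
    have h1 : (1 / 2 : ℝ) ^ K = 1 / ((2 ^ K : ℕ) : ℝ) := by
      push_cast
      rw [one_div_pow]
    rw [h1, hJe]
    refine (half_pow_le (2 ^ K) Nat.one_le_two_pow (Nat.clog 2 (16 * a))).trans ?_
    rw [one_div_pow]
    refine one_div_le_one_div_of_le (by positivity) ?_
    have h3 : 16 * a ≤ 2 ^ Nat.clog 2 (16 * a) := Nat.le_pow_clog (by norm_num) _
    exact_mod_cast h3
  · -- rounds
    push_cast
    rw [hτ, hMeR, hBeR]
    exact num6_rounds ha' hW1' hV1'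
  · -- big terms
    intro X G hG
    have hB1 : (1 : ℝ) ≤ (Bd9 C e a : ℕ) := by
      have : 1 ≤ Bd9 C e a := by unfold Bd9; omega
      exact_mod_cast this
    have hWG : tW G ≤ (Bd9 C e a : ℕ) := by
      refine (hCe n _ _ X G (by omega) hG).trans ?_
      rw [one_div_one_div]
      unfold Bd9
      push_cast
      have e1 : (2 : ℝ) * (16 * a) = 32 * a := by ring
      rw [e1]
      linarith
    exact big_total_le hG hd hB1 hWG (hpa ℓ0 le_rfl).2.2.2.2 (fun ℓ h => (hpb ℓ h).2)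
      (by positivity) (fun ℓ _ => del10_pos t ℓ) (fun ℓ h => (hpb ℓ h).1)
  · -- candidates
    rw [hKe]
    intro α G hαd hαn hαl hG hirr hgG T hT hTr hTb hTL
    refine cand10 (W := W) (ℓ0 := ℓ0) (J := J) (τ := τ) hC1 hm0 ha hτ0 hdst hrep0
      (hpN _ (by omega)) (hpN _ (by omega)) hN3 (by rw [← hKe]; exact hWJ2) rfl ?_ hpa hps hpn
      α G hαd hαn hαl hG hirr hgG T hT hTr hTb hTL
    push_cast
    have h1 := num6_tau (k := k) ha' hW1' hV1' h2L1
    rw [← hMeR, ← hτ] at h1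
    refine le_trans ?_ h1
    have e1 : 8 * (256 * (a : ℝ)) * (2 ^ kx10 t d * (2 * τ)) * 2 ^ Mx10 t d * (W * 2 ^ L1) =
        (8 * (256 * a) * (2 * τ) * (W * 2 ^ L1)) * (2 ^ kx10 t d * 2 ^ Mx10 t d) := by ring
    have e2 : 8 * (256 * (a : ℝ)) * (2 ^ k * (2 * τ)) * (W * 2 ^ L1) =
        (8 * (256 * a) * (2 * τ) * (W * 2 ^ L1)) * 2 ^ k := by ring
    rw [e1, e2]
    exact mul_le_mul_of_nonneg_left htwo (by positivity)
  · -- gap
    intro T hT
    rcases hlen0 T hT with h | h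
    · exact Or.inl h
    · exact Or.inr (hℓ.trans h)
  · -- hL1
    rw [one_div_pow, mul_one_div, div_le_div_iff₀ (by positivity) (by positivity), one_mul]
    calc (d : ℝ) * (n : ℝ) ^ (t + 1) * (16 * a) ≤ V * (16 * a) :=
          mul_le_mul_of_nonneg_right hVn (by positivity)
      _ = 16 * a * V := by ring
      _ ≤ _ := h2L1'
  · -- hτK
    rw [hτ, hMeR]
    refine num6_K ha' hW1' hV1' ?_
    rw [hK, pow_succ, mul_comm]
    have : (2 : ℝ) ^ tz t d ≤ 2 ^ k := pow_le_pow_right₀ (by norm_num) (by omega)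
    linarith
  · -- herr
    push_cast
    rw [hBeR]
    exact num6_err ha' hW1' hV1' hVn (by rw [hτ, hMeR])

theorem CodegDNF.mono {n t d d' r ℓ : ℕ} (hd : d ≤ d') {g : (Fin n → Bool) → Bool}
    (h : CodegDNF t d r ℓ g) : CodegDNF t d' r ℓ g := by
  obtain ⟨F, h1, h2, h3⟩ := h
  exact ⟨F, h1, fun S hS => (h2 S hS).trans hd, h3⟩

/-- **For all constants `t` and `d`, DNF formulas in which any `t + 1` variables occur together in
at most `d` terms are learnable from uniform random examples in time `n ^ O (log (1 / ε))`.**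

`learn (n, r, a, S)` is the hypothesis (a DNF formula) found from the labelled sample `S` with
accuracy parameter `ε = 1 / a`, in time polynomial in `(n + 1) ^ r` and the length of the input.
The target `f` is a function `g` computed by a DNF formula, with any number of terms and not
necessarily unate, in which any `t + 1` different variables occur together in at most `d` terms and
no term has a length strictly between `r` and `c (⌈log a⌉ + 1)`, or more generally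
differs from such a `g` on at most a fraction `1 / Q (n + a)` of the cube. There is no condition on
the lengths of the terms when `r` is at least `c (⌈log a⌉ + 1)`. -/
theorem result (t d : ℕ) :
    ∃ (c : ℕ) (learn : ℕ × ℕ × ℕ × Samples → List (List Lit)) (P Q : Polynomial ℕ),
      ComputedInTime learn (fun i => P.eval ((i.1 + 1) ^ i.2.1 + (code i).length)) ∧
      ∀ (n r a b m : ℕ) (f g : (Fin n → Bool) → Bool), 1 ≤ a → 1 ≤ b →
        CodegDNF t d r (c * (Nat.clog 2 a + 1)) g →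
        Q.eval (n + a) * (Finset.univ.filter fun x => f x ≠ g x).card ≤ 2 ^ n →
        Q.eval (n + a + Nat.clog 2 b) ≤ m →
        (1 - 1 / (b : ℝ)) * ((2 : ℝ) ^ n) ^ m ≤
          ((Finset.univ.filter fun ω : Fin m → Fin n → Bool =>
            err f (learn (n, r, a, smp f ω)) ≤ 1 / (a : ℝ)).card : ℝ) := by
  obtain ⟨D, hD⟩ : ∃ D, D = d + 1 := ⟨_, rfl⟩
  have hD1 : 1 ≤ D := by omega
  obtain ⟨C, e, hCe⟩ := weight_bound10 t D hD1
  obtain ⟨C1, hC1⟩ := noise10 t D (4 * (2 * t + 3))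
  obtain ⟨c1, hc1⟩ := par10_a t D
  obtain ⟨c2, hc2⟩ := par10_sig t D (Mx10 t D)
  obtain ⟨c3, hc3⟩ := par10_noise t (Mx10 t D) (kx10 t D) C1
  obtain ⟨c4, hc4⟩ := par10_big t D C e
  obtain ⟨c0, hc0⟩ : ∃ c0, c0 = c1 + c2 + c3 + c4 := ⟨_, rfl⟩
  obtain ⟨c, hc⟩ := gap9 (tz t D) c0
  obtain ⟨P, hP⟩ := computedInTime_of_run (f := learn t D) (g := fun p => (p.1 + 1) ^ p.2.1)
    (run_search (g := fun p : ℕ × ℕ × ℕ × Samples => (p.1 + 1) ^ p.2.1)
      (poly_cpTest (by fun_prop) (by fun_prop) (by fun_prop) (fun _ => by omega))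
      (poly_learnT t D))
  refine ⟨c, learn t D, P, QP t D, hP, ?_⟩
  intro n r a b m f g ha hb hg hfg hm
  have hle : ∀ c' ≤ c0, ∀ ℓ : ℕ, c0 * (Nat.clog 2 a + 1) ≤ ℓ →
      c' * (Nat.clog 2 a + 1) ≤ ℓ := fun c' h ℓ hℓ =>
    (Nat.mul_le_mul_right _ h).trans hℓ
  exact main t D C e C1 hD1 hCe hC1 n r a b m _ (c0 * (Nat.clog 2 a + 1)) f g ha hb
    (fun ℓ h => hc1 a ℓ ha (hle c1 (by omega) ℓ h))
    (fun ℓ h => hc2 a ℓ ha (hle c2 (by omega) ℓ h))
    (fun ℓ h => hc3 a ℓ ha (hle c3 (by omega) ℓ h))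
    (fun ℓ h => hc4 a ℓ ha (hle c4 (by omega) ℓ h))
    (hc a ha) (CodegDNF.mono (by omega) hg) hfg hm

end Pool.Agent.Results.MP_cba12a_lc.CodegreeDNF
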