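import Pool.Agent.H.MP_cba12a_lc.Final5

/-!
# DNF formulas in which every variable occurs in at most `k` terms, for constant `k`

For every constant `k`, arbitrary (not necessarily unate) DNF formulas with any number of terms in
which every variable occurs in at most `k` terms are learnable, from uniform random labelled
examples only, in time polynomial in `n`, `1 / ε` and `log (1 / δ)`.
-/

namespace Pool.Agent.Results.MP_cba12a_lc.ConstReadDNF

open Pool.Agent.H.MP_5be563_lc.PT Pool.Agent.H.MP_cba12a_lc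

@[fun_prop]
theorem poly_pow {α : Type} [Enc α] {f : α → ℕ} (hf : Poly f) (k : ℕ) :
    Poly (fun a => f a ^ k) := by
  induction k with
  | zero =>
    simp only [pow_zero]
    fun_prop
  | succ k ih =>
    simp only [pow_succ]
    fun_prop

/-- bound on the sizes of all lists -/
def NN (k n a : ℕ) : ℕ :=
  (64 * a * (16 * a) ^ (8 * k ^ 2 * 2 ^ (8 * k ^ 2)) * (16 * a * (k * n + 1)) ^ 4 *
    (2 * n + 1) ^ (8 * k ^ 2)) ^ 10

/-- inverse of the threshold of the test -/
def AA (k n a : ℕ) : ℕ := 32 * a * (2 * n + 1) * (NN k n a + 1) ^ 3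

/-- number of rounds -/
def JJ (k a : ℕ) : ℕ := 2 ^ (8 * k ^ 2) * Nat.clog 2 (8 * a)

/-- the learner for formulas in which every variable occurs in at most `k` terms -/
def learn (k : ℕ) (p : ℕ × ℕ × Samples) : List (List Lit) :=
  core5 p.2.1 (AA k p.1 p.2.1) (NN k p.1 p.2.1) (8 * k ^ 2) (JJ k p.2.1) (allLits p.1) p.2.2

theorem poly_learn (k : ℕ) : Poly (learn k) := by
  unfold learn
  have h1 : Poly (fun p : ℕ × ℕ × Samples => NN k p.1 p.2.1) := by
    unfold NN
    fun_prop
  have h2 : Poly (fun p : ℕ × ℕ × Samples => AA k p.1 p.2.1) := by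
    unfold AA
    fun_prop
  have h3 : Poly (fun p : ℕ × ℕ × Samples => JJ k p.2.1) := by
    unfold JJ
    fun_prop
  exact poly_core5 (by fun_prop) h2 h1 (by fun_prop) (by fun_prop) (by fun_prop) h3

theorem NN_mono {k n a n' a' : ℕ} (hn : n ≤ n') (ha : a ≤ a') : NN k n a ≤ NN k n' a' := by
  unfold NN
  gcongr

theorem AA_mono {k n a n' a' : ℕ} (hn : n ≤ n') (ha : a ≤ a') : AA k n a ≤ AA k n' a' := by
  unfold AA
  have := NN_mono (k := k) hn ha
  gcongr

open Polynomial in
/-- the polynomial for `NN` -/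
noncomputable def NP (k : ℕ) : Polynomial ℕ :=
  (64 * X * (16 * X) ^ (8 * k ^ 2 * 2 ^ (8 * k ^ 2)) * (16 * X * (C k * X + 1)) ^ 4 *
    (2 * X + 1) ^ (8 * k ^ 2)) ^ 10

open Polynomial in
/-- the polynomial for the number of samples -/
noncomputable def QP (k : ℕ) : Polynomial ℕ :=
  2 ^ 18 * (32 * X * (2 * X + 1) * (NP k + 1) ^ 3) ^ 2 * (2 * X + 2)

theorem eval_NP (k x : ℕ) : (NP k).eval x = NN k x x := by
  unfold NP NN
  simp

theorem eval_QP (k x : ℕ) : (QP k).eval x = 2 ^ 18 * AA k x x ^ 2 * (2 * x + 2) := by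
  unfold QP AA
  rw [← eval_NP]
  simp

theorem mu_errE_eq {n : ℕ} (f : (Fin n → Bool) → Bool) (H : List (List Lit)) :
    mu (errE f H) = err f H := by
  unfold mu err ct
  rw [Fintype.card_fun, Fintype.card_fin, Fintype.card_bool]
  push_cast
  congr 2
  refine congrArg Finset.card ?_
  ext x
  simp only [Finset.mem_filter, Finset.mem_univ, true_and, errE_iff]
  exact ne_comm

theorem lam_ok {k : ℕ} (hk : 1 ≤ k) : (3 : ℝ) * k * (3 / 4) ^ (4 * k) ≤ 1 := by
  rw [pow_mul]
  have e : ((3 : ℝ) / 4) ^ 4 = 81 / 256 := by norm_num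
  rw [e]
  induction k, hk using Nat.le_induction with
  | base => norm_num
  | succ k hk ih =>
    have hk' : (1 : ℝ) ≤ k := by exact_mod_cast hk
    rw [pow_succ]
    push_cast
    have h1 : (0 : ℝ) < (81 / 256) ^ k := by positivity
    nlinarith

theorem half_pow_le (M : ℕ) (hM : 1 ≤ M) (c : ℕ) : (1 - 1 / (M : ℝ)) ^ (M * c) ≤ (1 / 2) ^ c := by
  have hM' : (1 : ℝ) ≤ M := by exact_mod_cast hM
  rw [pow_mul]
  have h0 : (0 : ℝ) ≤ 1 - 1 / M := by
    have : 1 / (M : ℝ) ≤ 1 := by
      rw [div_le_one (by positivity)]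
      exact hM'
    linarith
  refine pow_le_pow_left₀ (by positivity) ?_ c
  have h1 : 1 - 1 / (M : ℝ) ≤ Real.exp (-(1 / M)) := by
    have := Real.add_one_le_exp (-(1 / (M : ℝ)))
    linarith
  calc (1 - 1 / (M : ℝ)) ^ M ≤ Real.exp (-(1 / M)) ^ M := pow_le_pow_left₀ h0 h1 M
    _ = Real.exp (-1) := by
        rw [← Real.exp_nat_mul]
        congr 1
        field_simp
    _ ≤ 1 / 2 := by
        rw [Real.exp_neg, ← one_div]
        refine one_div_le_one_div_of_le (by norm_num) ?_
        have := Real.add_one_le_exp (1 : ℝ)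
        linarith

theorem ReadK.mono {n k k' : ℕ} (h : k ≤ k') {g : (Fin n → Bool) → Bool} (hg : ReadK k g) :
    ReadK k' g := by
  obtain ⟨F, h1, h2⟩ := hg
  exact ⟨F, h1, fun i => (h2 i).trans h⟩

/-- The result for `1 ≤ k`. -/
theorem main (k : ℕ) (hk : 1 ≤ k) (n a b m : ℕ) (f g : (Fin n → Bool) → Bool) (ha : 1 ≤ a)
    (hb : 1 ≤ b) (hread : ReadK k g)
    (hfg : (QP k).eval (n + a) * (Finset.univ.filter fun x => f x ≠ g x).card ≤ 2 ^ n)
    (hm : (QP k).eval (n + a + Nat.clog 2 b) ≤ m) :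
    (1 - 1 / (b : ℝ)) * ((2 : ℝ) ^ n) ^ m ≤
      ((Finset.univ.filter fun ω : Fin m → Fin n → Bool =>
        err f (learn k (n, a, smp f ω)) ≤ 1 / (a : ℝ)).card : ℝ) := by
  classical
  have ha' : (1 : ℝ) ≤ a := by exact_mod_cast ha
  have hn0 : (0 : ℝ) ≤ n := by positivity
  set N := NN k n a with hN
  set A := AA k n a with hA
  set L := 8 * k ^ 2 with hL
  have hkL : k ≤ L := by rw [hL]; nlinarith
  have hA0 : 0 < A := by rw [hA]; unfold AA; positivity
  have hA' : (1 : ℝ) ≤ A := by exact_mod_cast hA0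
  have hAr : (A : ℝ) = 32 * a * (2 * n + 1) * ((N : ℝ) + 1) ^ 3 := by
    rw [hA, hN]; unfold AA; push_cast; ring
  rw [eval_QP] at hfg hm
  have hm1 : 2 ^ 18 * A ^ 2 * (2 * n + 2 + Nat.clog 2 b) ≤ m := by
    refine le_trans ?_ hm
    have h1 : A ≤ AA k (n + a + Nat.clog 2 b) (n + a + Nat.clog 2 b) :=
      AA_mono (by omega) (by omega)
    exact Nat.mul_le_mul (Nat.mul_le_mul_left _ (Nat.pow_le_pow_left h1 2)) (by omega)
  have hm0 : 0 < m := by
    have : 0 < 2 ^ 18 * A ^ 2 * (2 * n + 2 + Nat.clog 2 b) := by positivity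
    omega
  set τ : ℝ := 1 / (256 * A) with hτ
  have hτ0 : 0 < τ := by rw [hτ]; positivity
  have hdst : dst f g ≤ τ := by
    unfold dst
    rw [hτ, div_le_div_iff₀ (by positivity) (by positivity), one_mul]
    have h1 : A ≤ AA k (n + a) (n + a) := AA_mono (by omega) (by omega)
    have h2 : 256 * A ≤ 2 ^ 18 * AA k (n + a) (n + a) ^ 2 * (2 * (n + a) + 2) := by
      calc 256 * A ≤ 256 * AA k (n + a) (n + a) := Nat.mul_le_mul_left _ h1
        _ ≤ 2 ^ 18 * AA k (n + a) (n + a) ^ 2 := by nlinarith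
        _ ≤ _ := Nat.le_mul_of_pos_right _ (by omega)
    have h3 := (Nat.mul_le_mul_right (Finset.univ.filter fun x => f x ≠ g x).card h2).trans hfg
    have h4 : (256 * A : ℝ) * ((Finset.univ.filter fun x => f x ≠ g x).card : ℝ) ≤ 2 ^ n := by
      exact_mod_cast h3
    linarith
  refine rep_of_large f 0 b hb τ hτ0 ?_ ?_ _ ?_
  · rw [hτ, div_le_one (by positivity)]
    linarith
  · have hm' : (2 : ℝ) ^ 18 * A ^ 2 * (2 * n + 2 + Nat.clog 2 b) ≤ m := by exact_mod_cast hm1
    have h1 : (2 : ℝ) ^ 18 * A ^ 2 * (2 * n + 2 + Nat.clog 2 b) * τ ^ 2 =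
        4 * (2 * n + 2 + Nat.clog 2 b) := by
      rw [hτ]
      field_simp
      norm_num
    have h2 := mul_le_mul_of_nonneg_right hm' (show (0 : ℝ) ≤ τ ^ 2 by positivity)
    rw [h1] at h2
    push_cast
    linarith
  · intro ω hω
    rw [← mu_errE_eq]
    obtain ⟨F, hgF, hF⟩ := hread
    have hread' : ∀ j, (F.filter fun T => j ∈ vs T).card ≤ k := by
      intro j
      refine le_trans (Finset.card_le_card ?_) (hF j)
      intro T hT
      rw [Finset.mem_filter] at hT ⊢
      exact ⟨hT.1, mem_vs.1 hT.2⟩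
    set J := JJ k a with hJ
    set ℓ := Nat.clog 2 (8 * a * (k * n + 1)) with hℓ
    set R : ℕ := 64 * a * (2 * n + 1) ^ k * 2 ^ (L * J) * 9 ^ ℓ with hR
    have hR0 : 0 < R := by rw [hR]; positivity
    have hR1 : (1 : ℝ) ≤ R := by exact_mod_cast hR0
    have hLJ : 2 ^ (L * J) ≤ (16 * a) ^ (L * 2 ^ L) := by
      have h1 : 2 ^ (L * J) = (2 ^ Nat.clog 2 (8 * a)) ^ (L * 2 ^ L) := by
        rw [← pow_mul]
        congr 1
        rw [hJ]
        unfold JJ
        rw [← hL]
        ring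
      rw [h1]
      refine Nat.pow_le_pow_left ?_ _
      have := two_pow_clog_le (8 * a) (by omega)
      omega
    have h9 : 9 ^ ℓ ≤ (16 * a * (k * n + 1)) ^ 4 := by
      have h1 : 9 ^ ℓ ≤ (2 ^ ℓ) ^ 4 := by
        rw [← pow_mul, mul_comm, pow_mul]
        exact Nat.pow_le_pow_left (by norm_num) ℓ
      refine h1.trans (Nat.pow_le_pow_left ?_ 4)
      have := two_pow_clog_le (8 * a * (k * n + 1)) (Nat.succ_le_of_lt (by positivity))
      calc 2 ^ ℓ ≤ 2 * (8 * a * (k * n + 1)) := this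
        _ = 16 * a * (k * n + 1) := by ring
    set M : ℕ := 64 * a * (16 * a) ^ (L * 2 ^ L) * (16 * a * (k * n + 1)) ^ 4 *
      (2 * n + 1) ^ L with hM
    have hNM : N = M ^ 10 := rfl
    have hM0 : 0 < M := by rw [hM]; positivity
    have hRM : R ≤ M := by
      have h1 : (2 * n + 1) ^ k ≤ (2 * n + 1) ^ L := Nat.pow_le_pow_right (by omega) hkL
      calc R ≤ 64 * a * (2 * n + 1) ^ L * (16 * a) ^ (L * 2 ^ L) *
            (16 * a * (k * n + 1)) ^ 4 := by
            rw [hR]
            gcongr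
        _ = M := by rw [hM]; ring
    have hMN : M ≤ N := by
      rw [hNM]
      exact Nat.le_self_pow (by norm_num) M
    have hNA : N ≤ A := by
      rw [hA]
      unfold AA
      rw [← hN]
      have h1 : N + 1 ≤ (N + 1) ^ 3 := Nat.le_self_pow (by norm_num) _
      have h2 : 1 ≤ 32 * a * (2 * n + 1) := Nat.succ_le_of_lt (by positivity)
      calc N ≤ (N + 1) ^ 3 := by omega
        _ ≤ 32 * a * (2 * n + 1) * (N + 1) ^ 3 := Nat.le_mul_of_pos_left _ h2
    have hLM : ∀ x, x ≤ M → x ≤ N := fun x hx => hx.trans hMN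
    set ρ : ℝ := 1 / R with hρ
    have hρR : ρ * (64 * a * (2 * n + 1) ^ k * 2 ^ (L * J) * 9 ^ ℓ) ≤ 1 := by
      have h1 : (64 * a * (2 * n + 1) ^ k * 2 ^ (L * J) * 9 ^ ℓ : ℝ) = R := by
        rw [hR]; push_cast; ring
      rw [h1, hρ]
      refine le_of_eq ?_
      field_simp
    refine core5_error (ℓ := ℓ) (ρ := ρ) hm0 ha hk hA0 hτ0 ?_ (lam_ok hk) hgF hread' hdst hω hρR
      ?_ ?_ ?_ ?_ ?_ ?_ ?_ ?_
    · -- 256 τ ≤ ρ
      have h1 : 256 * τ = 1 / A := by rw [hτ]; field_simp
      rw [h1, hρ]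
      refine one_div_le_one_div_of_le (by linarith) ?_
      have : R ≤ A := hRM.trans (hMN.trans hNA)
      exact_mod_cast this
    · -- number of leaves
      refine hLM _ ?_
      have h1 : (L + 1) ^ J ≤ 2 ^ (L * J) := by
        rw [pow_mul]
        exact Nat.pow_le_pow_left Nat.lt_two_pow_self J
      refine (h1.trans hLJ).trans ?_
      rw [hM]
      have h2 : 1 ≤ 64 * a := by omega
      have h3 : 1 ≤ (16 * a * (k * n + 1)) ^ 4 := Nat.one_le_pow _ _ (by positivity)
      have h4 : 1 ≤ (2 * n + 1) ^ L := Nat.one_le_pow _ _ (by omega)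
      calc (16 * a) ^ (L * 2 ^ L) ≤ 64 * a * (16 * a) ^ (L * 2 ^ L) :=
            Nat.le_mul_of_pos_left _ h2
        _ ≤ 64 * a * (16 * a) ^ (L * 2 ^ L) * (16 * a * (k * n + 1)) ^ 4 :=
            Nat.le_mul_of_pos_right _ h3
        _ ≤ _ := Nat.le_mul_of_pos_right _ h4
    · refine hLM _ ?_
      rw [hM]
      exact Nat.le_mul_of_pos_left _ (by positivity)
    · have h1 : R ^ 10 ≤ M ^ 10 := Nat.pow_le_pow_left hRM 10
      rw [← hNM] at h1
      rw [hρ, one_div_one_div]
      have h2 : ((R : ℝ)) ^ 10 ≤ (N : ℝ) := by exact_mod_cast h1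
      exact h2
    · rw [hτ]
      have : 2 * (1 / (256 * (A : ℝ))) * A = 1 / 128 := by field_simp; norm_num
      rw [this]
      norm_num
    · -- unfinished part
      have h1 : (1 / 2 : ℝ) ^ L = 1 / ((2 ^ L : ℕ) : ℝ) := by
        push_cast
        rw [one_div_pow]
      rw [h1]
      have h2 := half_pow_le (2 ^ L) Nat.one_le_two_pow (Nat.clog 2 (8 * a))
      refine h2.trans ?_
      rw [one_div_pow]
      refine one_div_le_one_div_of_le (by positivity) ?_
      have h3 : 8 * a ≤ 2 ^ Nat.clog 2 (8 * a) := Nat.le_pow_clog (by norm_num) _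
      exact_mod_cast h3
    · have h3 : 8 * a * (k * n + 1) ≤ 2 ^ ℓ := Nat.le_pow_clog (by norm_num) _
      have h4 : (8 * a * ((k * n + 1 : ℕ) : ℝ)) ≤ 2 ^ ℓ := by exact_mod_cast h3
      rw [one_div_pow, mul_one_div, div_le_div_iff₀ (by positivity) (by positivity), one_mul]
      linarith
    · have h1 : (1 : ℝ) / A + 2 * τ = 129 / 128 * (1 / A) := by
        rw [hτ]; field_simp; norm_num
      rw [h1, hAr]
      have h2 : (2 * (n : ℝ) + 1) * ((N : ℝ) + 1) ^ 3 *
          (129 / 128 * (1 / (32 * a * (2 * n + 1) * ((N : ℝ) + 1) ^ 3))) =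
          129 / 4096 * (1 / a) := by
        field_simp
        norm_num
      have e8 : (1 : ℝ) / (8 * a) = 1 / 8 * (1 / a) := by field_simp
      rw [h2, e8]
      have : (0 : ℝ) < 1 / a := by positivity
      linarith
    · rw [hτ]
      refine one_div_le_one_div_of_le (by positivity) ?_
      have h1 : a ≤ A := by
        rw [hA]
        unfold AA
        have h2 : 1 ≤ (2 * n + 1) * (NN k n a + 1) ^ 3 := Nat.succ_le_of_lt (by positivity)
        calc a ≤ 32 * a := by omega
          _ ≤ 32 * a * ((2 * n + 1) * (NN k n a + 1) ^ 3) := Nat.le_mul_of_pos_right _ h2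
          _ = _ := by ring
      have h2 : (a : ℝ) ≤ A := by exact_mod_cast h1
      linarith

/-- **For every constant `k`, DNF formulas in which every variable occurs in at most `k` terms are
learnable from uniform random examples in polynomial time.**

`learn (n, a, S)` is the hypothesis (a DNF formula) found from the labelled sample `S` with
accuracy parameter `ε = 1 / a`. The target `f` is a function `g` computed by a DNF formula, with
any number of terms and not necessarily unate, in which every variable occurs in at most `k` terms,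
or more generally differs from such a `g` on at most a fraction `1 / Q (n + a)` of the cube. -/
theorem result (k : ℕ) :
    ∃ (learn : ℕ × ℕ × Samples → List (List Lit)) (P Q : Polynomial ℕ),
      ComputedInTime learn (fun i => P.eval (code i).length) ∧
      ∀ (n a b m : ℕ) (f g : (Fin n → Bool) → Bool), 1 ≤ a → 1 ≤ b → ReadK k g →
        Q.eval (n + a) * (Finset.univ.filter fun x => f x ≠ g x).card ≤ 2 ^ n →
        Q.eval (n + a + Nat.clog 2 b) ≤ m →
        (1 - 1 / (b : ℝ)) * ((2 : ℝ) ^ n) ^ m ≤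
          ((Finset.univ.filter fun ω : Fin m → Fin n → Bool =>
            err f (learn (n, a, smp f ω)) ≤ 1 / (a : ℝ)).card : ℝ) := by
  obtain ⟨p, P, hP⟩ := poly_learn (k + 1)
  obtain ⟨P', hP'⟩ := computedInTime_of_run (f := learn (k + 1)) (g := fun _ => 0)
    ⟨p, P, fun a m => by simpa using hP a m⟩
  refine ⟨learn (k + 1), P', QP (k + 1), by simpa using hP', ?_⟩
  intro n a b m f g ha hb hread hfg hm
  exact main (k + 1) (by omega) n a b m f g ha hb (ReadK.mono (by omega) hread) hfg hm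

end Pool.Agent.Results.MP_cba12a_lc.ConstReadDNF
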