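import Pool.Agent.H.MP_cba12a_lc.Analysis
import Pool.Agent.H.MP_cba12a_lc.Lg

/-!
# DNF formulas with `s` terms from uniform random examples in time `poly (n ^ log s, 1 / ε)`

One algorithm, which sees only uniform random labelled examples, learns every `s`-term DNF formula
over `n` variables to accuracy `ε = 1 / a` with confidence `1 - δ = 1 - 1 / b` in time polynomial
in `n ^ ⌈log₂ s⌉`, `n`, `s`, `1 / ε` and `log (1 / δ)`. It is enough that the target agrees with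
some `s`-term DNF formula on all but a fraction `ε² / (256 s)` of the cube.
-/

namespace Pool.Agent.Results.MP_cba12a_lc.GeneralDNF

open Pool.Agent.H.MP_5be563_lc.PT Pool.Agent.H.MP_cba12a_lc

/-- the learner, with the value `T = n ^ Nat.clog 2 s` as a further argument -/
def learnT (p : (ℕ × ℕ × ℕ × Samples) × ℕ) : List (List Lit) :=
  core p.1.2.1 p.1.2.2.1
    ((2 * p.1.1 + 1) * (2 * p.1.1 + 1) * (2 * p.1.1 + 1) *
      ((2 * p.1.2.1) * (2 * p.1.2.1) * (2 * p.1.2.1) * (2 * p.1.2.1) * (2 * p.1.2.1) *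
        (2 * p.1.2.1)) * ((p.2 + 1) * (p.2 + 1) * (p.2 + 1)) *
      (((4 * p.1.2.1 * p.1.2.2.1) * (4 * p.1.2.1 * p.1.2.2.1) * (4 * p.1.2.1 * p.1.2.2.1) *
        (4 * p.1.2.1 * p.1.2.2.1) * (4 * p.1.2.1 * p.1.2.2.1)) *
        ((4 * p.1.2.1 * p.1.2.2.1) * (4 * p.1.2.1 * p.1.2.2.1) * (4 * p.1.2.1 * p.1.2.2.1) *
        (4 * p.1.2.1 * p.1.2.2.1) * (4 * p.1.2.1 * p.1.2.2.1))))
    (3 * (Nat.clog 2 p.1.2.1 + 1)) (allLits p.1.1) p.1.2.2.2

theorem poly_learnT : Poly learnT := by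
  unfold learnT
  fun_prop

/-- the learner -/
def learn (p : ℕ × ℕ × ℕ × Samples) : List (List Lit) := learnT (p, p.1 ^ Nat.clog 2 p.2.1)

theorem bound1 (n s u : ℕ) (hu : 2 ^ u ≤ 2 * s) :
    (2 * n + 1) ^ (3 * (u + 1)) ≤ (2 * n + 1) ^ 3 * (2 * s) ^ 6 * (n ^ u + 1) ^ 3 := by
  have h1 : (2 * n + 1) ^ u ≤ 2 ^ u * 2 ^ u * (n ^ u + 1) := by
    rcases Nat.eq_zero_or_pos n with h | h
    · subst h
      simp only [mul_zero, zero_add, one_pow]
      have : 0 < 2 ^ u * 2 ^ u * (0 ^ u + 1) := by positivity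
      omega
    · calc (2 * n + 1) ^ u ≤ (2 * 2 * n) ^ u := Nat.pow_le_pow_left (by omega) u
        _ = 2 ^ u * 2 ^ u * n ^ u := by rw [mul_pow, mul_pow]
        _ ≤ _ := Nat.mul_le_mul_left _ (by omega)
  calc (2 * n + 1) ^ (3 * (u + 1)) = (2 * n + 1) ^ 3 * ((2 * n + 1) ^ u) ^ 3 := by ring
    _ ≤ (2 * n + 1) ^ 3 * (2 ^ u * 2 ^ u * (n ^ u + 1)) ^ 3 :=
        Nat.mul_le_mul_left _ (Nat.pow_le_pow_left h1 3)
    _ = (2 * n + 1) ^ 3 * (2 ^ u) ^ 6 * (n ^ u + 1) ^ 3 := by ring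
    _ ≤ _ := by gcongr

theorem mu_errE_eq {n : ℕ} (f : (Fin n → Bool) → Bool) (H : List (List Lit)) :
    mu (errE f H) = err f H := by
  unfold mu err ct
  rw [Fintype.card_fun, Fintype.card_fin, Fintype.card_bool]
  push_cast
  congr 2
  refine congrArg Finset.card ?_
  ext x
  simp only [Finset.mem_filter, Finset.mem_univ, true_and, errE_iff]
  exact ne_comm

/-- a DNF as a list of lists -/
theorem exists_list {n s : ℕ} {f : (Fin n → Bool) → Bool} (hf : IsDNF s f) :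
    ∃ G : List (List Lit), G.length ≤ s ∧ (∀ T ∈ G, ∀ l ∈ T, l.1 < n) ∧
      ∀ x : Fin n → Bool, satD (List.ofFn x) G = f x := by
  classical
  obtain ⟨F, hF, hx⟩ := hf
  refine ⟨F.toList.map fun T => T.toList.map fun l => ((l.1 : ℕ), l.2), by simpa using hF, ?_, ?_⟩
  · intro T hT l hl
    obtain ⟨T', _, rfl⟩ := List.mem_map.1 hT
    obtain ⟨l', _, rfl⟩ := List.mem_map.1 hl
    exact l'.1.2
  · intro x
    rw [Bool.eq_iff_iff, hx, satD_iff]
    constructor
    · rintro ⟨C, hC, hs⟩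
      obtain ⟨T, hT, rfl⟩ := List.mem_map.1 hC
      refine ⟨T, Finset.mem_toList.1 hT, ?_⟩
      intro l hl
      rw [sat_iff] at hs
      have h1 := hs ((l.1 : ℕ), l.2) (List.mem_map.2 ⟨l, Finset.mem_toList.2 hl, rfl⟩)
      rw [getElem?_ofFn] at h1
      exact h1.2
    · rintro ⟨T, hT, hs⟩
      refine ⟨T.toList.map fun l => ((l.1 : ℕ), l.2), List.mem_map.2 ⟨T, Finset.mem_toList.2 hT,
        rfl⟩, ?_⟩
      rw [sat_iff]
      intro l hl
      obtain ⟨l', hl', rfl⟩ := List.mem_map.1 hl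
      rw [getElem?_ofFn]
      exact ⟨l'.1.2, hs l' (Finset.mem_toList.1 hl')⟩

/-- **DNF formulas with `s` terms are learnable from uniform random examples in time polynomial in
`n ^ ⌈log₂ s⌉`, `n`, `s`, `1 / ε` and `log (1 / δ)`.**

`learn (n, s, a, S)` is the hypothesis (a DNF formula) found from the labelled sample `S` with
accuracy parameter `ε = 1 / a`. The target `f` is an `s`-term DNF formula `g`, or more generally
differs from such a `g` on at most a fraction `1 / (256 s a²)` of the cube. -/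
theorem result :
    ∃ (learn : ℕ × ℕ × ℕ × Samples → List (List Lit)) (P : Polynomial ℕ),
      ComputedInTime learn (fun i => P.eval (i.1 ^ Nat.clog 2 i.2.1 + (code i).length)) ∧
      ∀ (n s a b m : ℕ) (f g : (Fin n → Bool) → Bool), 1 ≤ s → 1 ≤ a → 1 ≤ b → IsDNF s g →
        256 * s * a ^ 2 * (Finset.univ.filter fun x => f x ≠ g x).card ≤ 2 ^ n →
        2 ^ 24 * s ^ 3 * a ^ 5 * (n + 1 + Nat.clog 2 b) ≤ m →
        (1 - 1 / (b : ℝ)) * ((2 : ℝ) ^ n) ^ m ≤
          ((Finset.univ.filter fun ω : Fin m → Fin n → Bool =>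
            err f (learn (n, s, a, smp f ω)) ≤ 1 / (a : ℝ)).card : ℝ) := by
  obtain ⟨P, hP⟩ := computedInTime_of_run (f := learn) (g := fun p => p.1 ^ Nat.clog 2 p.2.1)
    (run_search (g := fun p : ℕ × ℕ × ℕ × Samples => p.1 ^ Nat.clog 2 p.2.1)
      (poly_powTest (by fun_prop) (by fun_prop) (by fun_prop)) poly_learnT)
  refine ⟨learn, P, hP, ?_⟩
  intro n s a b m f g hs ha hb hg hfg hm
  classical
  have hs' : (1 : ℝ) ≤ s := by exact_mod_cast hs
  have ha' : (1 : ℝ) ≤ a := by exact_mod_cast ha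
  have hsa : (1 : ℝ) ≤ s * a := by nlinarith
  have hm0 : 0 < m := by
    have : 0 < 2 ^ 24 * s ^ 3 * a ^ 5 * (n + 1 + Nat.clog 2 b) := by positivity
    omega
  refine rep_of_large f (16 * s * a) b hb (1 / (256 * s * a ^ 2)) (by positivity) ?_ ?_ _ ?_
  · rw [div_le_one (by positivity)]
    nlinarith [sq_nonneg (a : ℝ)]
  · -- sample size
    have hm' : (2 : ℝ) ^ 24 * s ^ 3 * a ^ 5 * (n + 1 + Nat.clog 2 b) ≤ m := by exact_mod_cast hm
    have hc0 : (0 : ℝ) ≤ Nat.clog 2 b := by positivity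
    have hn0 : (0 : ℝ) ≤ n := by positivity
    have h1 : (2 : ℝ) ^ 24 * s ^ 3 * a ^ 5 * (n + 1 + Nat.clog 2 b) *
        (1 / (256 * s * a ^ 2)) ^ 2 = 256 * (s * a) * (n + 1 + Nat.clog 2 b) := by
      field_simp
      norm_num
    have h2 : (2 : ℝ) ^ 24 * s ^ 3 * a ^ 5 * (n + 1 + Nat.clog 2 b) *
        (1 / (256 * s * a ^ 2)) ^ 2 ≤ m * (1 / (256 * s * a ^ 2)) ^ 2 :=
      mul_le_mul_of_nonneg_right hm' (by positivity)
    rw [h1] at h2
    refine le_trans ?_ h2
    push_cast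
    have h3 : (2 * (n : ℝ) + 1) * (16 * s * a + 1) ≤ (2 * n + 1) * (17 * (s * a)) := by
      refine mul_le_mul_of_nonneg_left ?_ (by linarith)
      linarith
    have h4 : (1 : ℝ) + Nat.clog 2 b ≤ (s * a) * (1 + Nat.clog 2 b) := by nlinarith
    nlinarith [mul_nonneg hn0 (show (0 : ℝ) ≤ s * a by linarith),
      mul_nonneg hc0 (show (0 : ℝ) ≤ s * a by linarith)]
  · intro ω hω
    rw [← mu_errE_eq]
    obtain ⟨G, hG, hGn, hGx⟩ := exists_list hg
    have hclog := two_pow_clog_le s hs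
    refine core_error (c := Nat.clog 2 s + 1) (G := G) hm0 hs ha
      (fun l hl => mem_allLits.1 hl) (nodup_allLits n) hG
      (fun T hT l hl => mem_allLits.2 (hGn T hT l hl)) ?_ hω ?_ rfl ?_ ?_
    · have h1 : ct (errE f G) = (Finset.univ.filter fun x => f x ≠ g x).card := by
        unfold ct
        congr 1
        ext x
        simp only [Finset.mem_filter, Finset.mem_univ, true_and, errE_iff, hGx]
      unfold mu
      rw [h1, Fintype.card_fun, Fintype.card_fin, Fintype.card_bool,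
        div_le_div_iff₀ (by positivity) (by positivity), one_mul, mul_comm]
      exact_mod_cast hfg
    · rw [pow_succ, mul_comm]
      exact Nat.mul_le_mul_right 2 (Nat.le_pow_clog (by norm_num) s)
    · rw [length_allLits]
      refine (bound1 n s (Nat.clog 2 s) hclog).trans ?_
      have hpos : 1 ≤ (4 * s * a) ^ 10 := Nat.one_le_pow _ _ (by positivity)
      calc (2 * n + 1) ^ 3 * (2 * s) ^ 6 * (n ^ Nat.clog 2 s + 1) ^ 3 ≤
          (2 * n + 1) ^ 3 * (2 * s) ^ 6 * (n ^ Nat.clog 2 s + 1) ^ 3 * (4 * s * a) ^ 10 :=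
            Nat.le_mul_of_pos_right _ hpos
        _ = _ := by ring
    · have hpos : 1 ≤ (2 * n + 1) ^ 3 * (2 * s) ^ 6 * (n ^ Nat.clog 2 s + 1) ^ 3 :=
        Nat.succ_le_of_lt (by positivity)
      calc (4 * s * a) ^ 10 ≤
          (2 * n + 1) ^ 3 * (2 * s) ^ 6 * (n ^ Nat.clog 2 s + 1) ^ 3 * (4 * s * a) ^ 10 :=
            Nat.le_mul_of_pos_left _ hpos
        _ = _ := by ring

end Pool.Agent.Results.MP_cba12a_lc.GeneralDNF
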