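import Pool.Agent.H.MP_cba12a_lc.Final8
import Pool.Agent.H.MP_cba12a_lc.LinDefs

/-!
# Unate DNF formulas in which any two terms share at most one variable

For every constant `p`, one algorithm learns, from uniform random labelled examples only and in
time polynomial in `n` and `1 / ε`, all unate DNF formulas with any number of terms in which the
variables of every term can be coloured with `p` colours such that it shares with any other term
at most one variable of each colour. For `p = 1` these are the unate DNF formulas any two terms of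
which share at most one variable.
-/

namespace Pool.Agent.Results.MP_cba12a_lc.LinearDNF

open Pool.Agent.H.MP_5be563_lc.PT Pool.Agent.H.MP_cba12a_lc

@[fun_prop]
theorem poly_pow {α : Type} [Enc α] {f : α → ℕ} (hf : Poly f) (k : ℕ) :
    Poly (fun a => f a ^ k) := by
  induction k with
  | zero =>
    simp only [pow_zero]
    fun_prop
  | succ k ih =>
    simp only [pow_succ]
    fun_prop

/-- the inverse thresholds of the levels -/
def lvk (n a : ℕ) : ℕ → ℕ
  | 0 => 32 * a ^ 2
  | s + 1 => (n + 1) * lvk n a s ^ 2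

theorem lvk_pos {n a : ℕ} (ha : 1 ≤ a) (s : ℕ) : 1 ≤ lvk n a s := by
  induction s with
  | zero =>
    unfold lvk
    have := Nat.one_le_pow 2 a ha
    omega
  | succ s ih =>
    unfold lvk
    have := Nat.one_le_pow 2 _ ih
    exact Nat.mul_pos (by omega) this

theorem lvk_mono {n a n' a' : ℕ} (hn : n ≤ n') (ha : a ≤ a') (s : ℕ) :
    lvk n a s ≤ lvk n' a' s := by
  induction s with
  | zero =>
    unfold lvk
    exact Nat.mul_le_mul_left _ (Nat.pow_le_pow_left ha 2)
  | succ s ih =>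
    unfold lvk
    exact Nat.mul_le_mul (by omega) (Nat.pow_le_pow_left ih 2)

theorem poly_lvk {α : Type} [Enc α] {n a : α → ℕ} (hn : Poly n) (ha : Poly a) (s : ℕ) :
    Poly (fun q => lvk (n q) (a q) s) := by
  induction s with
  | zero =>
    unfold lvk
    fun_prop
  | succ s ih =>
    unfold lvk
    fun_prop

/-- inverse of the precision -/
def MM8 (p n a : ℕ) : ℕ := 64 * a * lvk n a (p + 1)

/-- bound on the sizes of all lists -/
def NN8 (p n a : ℕ) : ℕ := 4 * (4 * lvk n a (p + 1)) ^ 2 + (2 * n + 1) ^ p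

/-- the learner -/
def learn (p : ℕ) (q : ℕ × ℕ × Samples) : List (List Lit) :=
  core8 p (4 * q.2.1) (4 * lvk q.1 q.2.1 (p + 1)) (8 * lvk q.1 q.2.1 (p + 1)) (NN8 p q.1 q.2.1)
    (4 * lvk q.1 q.2.1 (p + 1)) q.1 q.1 q.2.2

theorem poly_learn (p : ℕ) : Poly (learn p) := by
  unfold learn
  have h1 : Poly (fun q : ℕ × ℕ × Samples => lvk q.1 q.2.1 (p + 1)) :=
    poly_lvk (by fun_prop) (by fun_prop) _
  have h2 : Poly (fun q : ℕ × ℕ × Samples => NN8 p q.1 q.2.1) := by
    unfold NN8
    fun_prop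
  exact poly_core8 p (by fun_prop) (by fun_prop) (by fun_prop) h2 (by fun_prop) (by fun_prop)
    (by fun_prop) (by fun_prop)

open Polynomial in
/-- the polynomial for `lvk` -/
noncomputable def LP : ℕ → Polynomial ℕ
  | 0 => 32 * X ^ 2
  | s + 1 => (X + 1) * LP s ^ 2

theorem eval_LP (x s : ℕ) : (LP s).eval x = lvk x x s := by
  induction s with
  | zero => simp [LP, lvk]
  | succ s ih =>
    unfold LP lvk
    rw [← ih]
    simp

open Polynomial in
/-- the polynomial for `MM8` -/
noncomputable def MP (p : ℕ) : Polynomial ℕ := 64 * X * LP (p + 1)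

open Polynomial in
/-- the polynomial for the number of samples -/
noncomputable def QP (p : ℕ) : Polynomial ℕ :=
  4 * MP p ^ 2 * ((2 * X + 1) * (MP p + 1) + 2 + X)

theorem eval_MP (p x : ℕ) : (MP p).eval x = MM8 p x x := by
  unfold MP MM8
  rw [← eval_LP]
  simp

theorem eval_QP (p x : ℕ) : (QP p).eval x =
    4 * MM8 p x x ^ 2 * ((2 * x + 1) * (MM8 p x x + 1) + 2 + x) := by
  unfold QP
  rw [← eval_MP]
  simp

theorem MM8_mono {p n a n' a' : ℕ} (hn : n ≤ n') (ha : a ≤ a') : MM8 p n a ≤ MM8 p n' a' := by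
  unfold MM8
  exact Nat.mul_le_mul (by omega) (lvk_mono hn ha _)

theorem mu_errE_eq {n : ℕ} (f : (Fin n → Bool) → Bool) (H : List (List Lit)) :
    mu (errE f H) = err f H := by
  unfold mu err ct
  rw [Fintype.card_fun, Fintype.card_fin, Fintype.card_bool]
  push_cast
  congr 2
  refine congrArg Finset.card ?_
  ext x
  simp only [Finset.mem_filter, Finset.mem_univ, true_and, errE_iff]
  exact ne_comm

/-- Orienting the formula. -/
theorem exists_oriented {n p : ℕ} {g : (Fin n → Bool) → Bool} {o : Fin n → Bool} (hg : Up o g)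
    (hF : LinearDNF p g) : ∃ F : Finset (Finset (Fin n)),
      (∀ x, g x = true ↔ ∃ A ∈ F, On o A x) ∧
      ∀ T ∈ F, ∃ col : Fin n → Fin p, ∀ A ∈ F, A ≠ T → ∀ i ∈ T ∩ A, ∀ j ∈ T ∩ A,
        col i = col j → i = j := by
  classical
  obtain ⟨F, hgF, hcol⟩ := hF
  obtain ⟨φ, hφ⟩ : ∃ φ : Finset (Fin n × Bool) → Finset (Fin n),
      ∀ T i, i ∈ φ T ↔ ∃ l ∈ T, l.2 = o l.1 ∧ l.1 = i := by
    refine ⟨fun T => (T.filter fun l => l.2 = o l.1).image Prod.fst, fun T i => ?_⟩
    rw [Finset.mem_image]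
    constructor
    · rintro ⟨l, hl, rfl⟩
      rw [Finset.mem_filter] at hl
      exact ⟨l, hl.1, hl.2, rfl⟩
    · rintro ⟨l, hl, h1, rfl⟩
      exact ⟨l, Finset.mem_filter.2 ⟨hl, h1⟩, rfl⟩
  refine ⟨(F.filter fun T => ∃ y : Fin n → Bool, ∀ l ∈ T, y l.1 = l.2).image φ, ?_, ?_⟩
  · intro x
    constructor
    · intro hx
      obtain ⟨T, hT, hs⟩ := (hgF x).1 hx
      refine ⟨φ T, Finset.mem_image_of_mem _ (Finset.mem_filter.2 ⟨hT, x, hs⟩), ?_⟩
      intro i hi
      obtain ⟨l, hl, h1, rfl⟩ := (hφ T i).1 hi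
      rw [hs l hl, h1]
    · rintro ⟨A, hA, hon⟩
      obtain ⟨T, hT, rfl⟩ := Finset.mem_image.1 hA
      obtain ⟨hTF, y, hy⟩ := Finset.mem_filter.1 hT
      set y' : Fin n → Bool := fun i => if (∃ l ∈ T, l.1 = i) then y i else x i with hy'
      have h1 : g y' = true := by
        rw [hgF]
        refine ⟨T, hTF, fun l hl => ?_⟩
        simp only [hy']
        rw [if_pos ⟨l, hl, rfl⟩]
        exact hy l hl
      refine up_le hg h1 fun i => ?_
      by_cases hi : ∃ l ∈ T, l.1 = i
      · obtain ⟨l, hl, rfl⟩ := hi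
        have e : y' l.1 = l.2 := by
          simp only [hy']
          rw [if_pos ⟨l, hl, rfl⟩]
          exact hy l hl
        by_cases hor : l.2 = o l.1
        · right
          exact hon l.1 ((hφ T _).2 ⟨l, hl, hor, rfl⟩)
        · rw [e]
          rcases Bool.eq_or_eq_not (x l.1) (o l.1) with h2 | h2
          · exact Or.inr h2
          · left
            rw [h2]
            rcases Bool.eq_or_eq_not l.2 (o l.1) with h3 | h3
            · exact absurd h3 hor
            · exact h3.symm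
      · left
        simp only [hy']
        rw [if_neg hi]
  · intro A hA
    obtain ⟨T, hT, rfl⟩ := Finset.mem_image.1 hA
    obtain ⟨col, hc⟩ := hcol T (Finset.mem_filter.1 hT).1
    refine ⟨col, ?_⟩
    intro A' hA' hne i hi j hj hij
    obtain ⟨T', hT', rfl⟩ := Finset.mem_image.1 hA'
    have hTT : T' ≠ T := fun h => hne (by rw [h])
    have key : ∀ k ∈ φ T ∩ φ T', k ∈ T.image Prod.fst ∩ T'.image Prod.fst := by
      intro k hk
      rw [Finset.mem_inter] at hk ⊢
      obtain ⟨l, hl, _, h1⟩ := (hφ T k).1 hk.1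
      obtain ⟨l', hl', _, h2⟩ := (hφ T' k).1 hk.2
      exact ⟨Finset.mem_image.2 ⟨l, hl, h1⟩, Finset.mem_image.2 ⟨l', hl', h2⟩⟩
    exact hc T' (Finset.mem_filter.1 hT').1 hTT i (key i hi) j (key j hj) hij

theorem main (p : ℕ) (n a b m : ℕ) (f g : (Fin n → Bool) → Bool) (ha : 1 ≤ a)
    (hb : 1 ≤ b) (hu : Unate g) (hg : LinearDNF p g)
    (hfg : (QP p).eval (n + a) * (Finset.univ.filter fun x => f x ≠ g x).card ≤ 2 ^ n)
    (hm : (QP p).eval (n + a + Nat.clog 2 b) ≤ m) :
    (1 - 1 / (b : ℝ)) * ((2 : ℝ) ^ n) ^ m ≤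
      ((Finset.univ.filter fun ω : Fin m → Fin n → Bool =>
        err f (learn p (n, a, smp f ω)) ≤ 1 / (a : ℝ)).card : ℝ) := by
  classical
  have ha' : (1 : ℝ) ≤ a := by exact_mod_cast ha
  have hn0 : (0 : ℝ) ≤ n := by positivity
  obtain ⟨M1, hM1⟩ : ∃ M1, M1 = lvk n a (p + 1) := ⟨_, rfl⟩
  obtain ⟨M, hM⟩ : ∃ M, M = MM8 p n a := ⟨_, rfl⟩
  have hM11 : 1 ≤ M1 := by rw [hM1]; exact lvk_pos ha _
  have hMe : M = 64 * a * M1 := by rw [hM, hM1]; rfl
  have hM11' : (1 : ℝ) ≤ M1 := by exact_mod_cast hM11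
  have hMeR : (M : ℝ) = 64 * a * M1 := by rw [hMe]; push_cast; ring
  have hM0 : 0 < M := by rw [hMe]; positivity
  have hM0' : (0 : ℝ) < M := by exact_mod_cast hM0
  have h8M : 8 * M1 ≤ M := by
    rw [hMe]
    calc 8 * M1 ≤ 64 * M1 := by omega
      _ ≤ 64 * a * M1 := Nat.mul_le_mul_right _ (by omega)
  rw [eval_QP] at hfg hm
  have hm1 : 4 * M ^ 2 * ((2 * n + 1) * (M + 1) + 2 + Nat.clog 2 b) ≤ m := by
    refine le_trans ?_ hm
    have h1 : M ≤ MM8 p (n + a + Nat.clog 2 b) (n + a + Nat.clog 2 b) := by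
      rw [hM]; exact MM8_mono (by omega) (by omega)
    refine Nat.mul_le_mul (Nat.mul_le_mul_left _ (Nat.pow_le_pow_left h1 2)) ?_
    have h2 : (2 * n + 1) * (M + 1) ≤ (2 * (n + a + Nat.clog 2 b) + 1) *
        (MM8 p (n + a + Nat.clog 2 b) (n + a + Nat.clog 2 b) + 1) :=
      Nat.mul_le_mul (by omega) (by omega)
    omega
  have hm0 : 0 < m := by
    have h1 : 0 < 4 * M ^ 2 := by positivity
    have h2 := Nat.mul_pos h1 (show 0 < (2 * n + 1) * (M + 1) + 2 + Nat.clog 2 b by omega)
    omega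
  obtain ⟨τ, hτ⟩ : ∃ τ : ℝ, τ = 1 / M := ⟨_, rfl⟩
  have hτ0 : 0 < τ := by rw [hτ]; positivity
  have hdst : dst f g ≤ τ := by
    rw [hτ]
    unfold dst
    rw [div_le_div_iff₀ (by positivity) hM0', one_mul]
    have h1 : M ≤ MM8 p (n + a) (n + a) := by rw [hM]; exact MM8_mono (by omega) (by omega)
    have h2 : M ≤ 4 * MM8 p (n + a) (n + a) ^ 2 *
        ((2 * (n + a) + 1) * (MM8 p (n + a) (n + a) + 1) + 2 + (n + a)) := by
      calc M ≤ MM8 p (n + a) (n + a) := h1
        _ ≤ MM8 p (n + a) (n + a) ^ 2 := Nat.le_self_pow (by norm_num) _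
        _ ≤ 4 * MM8 p (n + a) (n + a) ^ 2 := by omega
        _ ≤ _ := Nat.le_mul_of_pos_right _ (by omega)
    have h3 := (Nat.mul_le_mul_right (Finset.univ.filter fun x => f x ≠ g x).card h2).trans hfg
    have h4 : (M : ℝ) * ((Finset.univ.filter fun x => f x ≠ g x).card : ℝ) ≤
        2 ^ n := by exact_mod_cast h3
    linarith
  have hmm : (4 : ℝ) * (M : ℝ) ^ 2 * ((2 * n + 1) * (M + 1) + 2 + Nat.clog 2 b) ≤ m := by
    exact_mod_cast hm1
  have h8M' : (8 * (M1 : ℝ)) ≤ M := by exact_mod_cast h8M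
  clear hfg hm
  refine rep8_of_large f (8 * M1) b hb τ hτ0 ?_ ?_ _ ?_
  · rw [hτ, div_le_one hM0']
    exact_mod_cast hM0
  · rw [hτ, one_div_pow, mul_one_div, le_div_iff₀ (by positivity)]
    refine le_trans ?_ hmm
    push_cast
    have h1 : (2 * (n : ℝ) + 1) * (8 * M1 + 1) ≤ (2 * n + 1) * (M + 1) :=
      mul_le_mul_of_nonneg_left (by linarith) (by positivity)
    have h2 : (4 : ℝ) * ((2 * n + 1) * (8 * M1 + 1) + 2 + Nat.clog 2 b) ≤
        4 * ((2 * n + 1) * (M + 1) + 2 + Nat.clog 2 b) := by linarith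
    calc (4 : ℝ) * ((2 * n + 1) * (8 * M1 + 1) + 2 + Nat.clog 2 b) * (M : ℝ) ^ 2 ≤
        4 * ((2 * n + 1) * (M + 1) + 2 + Nat.clog 2 b) * (M : ℝ) ^ 2 :=
          mul_le_mul_of_nonneg_right h2 (by positivity)
      _ = _ := by ring
  intro ω hrep hrepX
  rw [← mu_errE_eq]
  obtain ⟨o, ho⟩ := exists_orient hu
  obtain ⟨F, hgF, hF⟩ := exists_oriented ho hg
  have hlearn : learn p (n, a, smp f ω) =
      core8 p (4 * a) (4 * M1) (8 * M1) (NN8 p n a) (4 * M1) n n (smp f ω) := by
    rw [hM1]; rfl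
  rw [hlearn]
  have hNe : NN8 p n a = 4 * (4 * M1) ^ 2 + (2 * n + 1) ^ p := by rw [hM1]; rfl
  have hlv : ∀ s, (1 : ℝ) ≤ lvk n a s := fun s => by exact_mod_cast lvk_pos ha s
  have hM10 : (0 : ℝ) < M1 := by linarith
  have ha0 : (0 : ℝ) < a := by linarith
  refine core8_error (κ := fun s => 1 / (lvk n a s : ℝ)) (σ := 1 / M1) hm0 ha ho hgF hF hdst
    hτ0 hrep hrepX (by omega) (by omega) ?_ ?_ ?_ ?_ ?_ ?_ ?_ ?_ ?_ ?_ le_rfl ?_ ?_ ?_
  · -- 16 τ ≤ 1 / Θ
    rw [hτ, hMeR]
    push_cast
    rw [mul_one_div, div_le_div_iff₀ (by positivity) (by positivity)]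
    nlinarith
  · intro s
    have := hlv s
    positivity
  · intro s
    rw [div_le_one (by linarith [hlv s])]
    exact hlv s
  · intro s
    have h1 := hlv s
    have h2 : (lvk n a (s + 1) : ℝ) = (n + 1) * (lvk n a s : ℝ) ^ 2 := by
      have : lvk n a (s + 1) = (n + 1) * lvk n a s ^ 2 := rfl
      rw [this]
      push_cast
      ring
    rw [h2, one_div_pow, mul_one_div, div_le_div_iff₀ (by positivity) (by positivity)]
    linarith
  · rw [← hM1]
  · rw [← hM1]
    push_cast
    rw [div_le_div_iff₀ (by positivity) (by positivity)]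
    linarith
  · -- σ
    rw [hτ, hMeR]
    push_cast
    have e : 1 / (4 * (M1 : ℝ)) + 2 * (4 * a + 1) * (1 / (64 * a * M1)) =
        (24 * a + 2) / (64 * a) * (1 / M1) := by
      field_simp
      ring
    rw [e]
    have h1 : (24 * (a : ℝ) + 2) / (64 * a) ≤ 1 := by
      rw [div_le_one (by positivity)]
      linarith
    have h2 : (0 : ℝ) < 1 / M1 := by positivity
    nlinarith
  · push_cast
    rw [div_le_div_iff₀ (by positivity) (by positivity)]
    linarith
  · rw [hNe]
    omega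
  · rw [hNe]
    omega
  · -- rounds
    rw [hτ, hMeR]
    push_cast
    have e : 8 * (M1 : ℝ) * (1 / (4 * M1) - 1 / (64 * a * M1)) = 2 - 1 / (8 * a) := by
      field_simp
      ring
    rw [e]
    have h1 : 1 / (8 * (a : ℝ)) ≤ 1 / 8 := one_div_le_one_div_of_le (by norm_num) (by linarith)
    linarith
  · have h1 : (lvk n a 0 : ℝ) = 32 * a ^ 2 := by
      have : lvk n a 0 = 32 * a ^ 2 := rfl
      rw [this]
      push_cast
      ring
    rw [h1, one_div, inv_mul_cancel₀ (by positivity)]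
  · rw [hτ, hMeR]
    push_cast
    have e : (2 * (8 * (M1 : ℝ)) + 1) * (1 / (64 * a * M1)) =
        (16 * M1 + 1) / (32 * M1) * (1 / (2 * a)) := by
      field_simp
      ring
    rw [e]
    have h1 : (16 * (M1 : ℝ) + 1) / (32 * M1) ≤ 1 := by
      rw [div_le_one (by positivity)]
      linarith
    have h2 : (0 : ℝ) < 1 / (2 * a) := by positivity
    nlinarith

/-- **Unate DNF formulas any two terms of which share at most one variable are learnable from
uniform random examples in polynomial time**, and more generally, for every constant `p`, those in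
which the variables of every term have a colouring with `p` colours such that the term shares with
any other term at most one variable of each colour.

`learn (n, a, S)` is the hypothesis (a DNF formula) found from the labelled sample `S` with
accuracy parameter `ε = 1 / a`, in time polynomial in the length of the input. The target `f` is
such a function `g`, or more generally differs from one on at most a fraction `1 / Q (n + a)` of
the cube. -/
theorem result (p : ℕ) :
    ∃ (learn : ℕ × ℕ × Samples → List (List Lit)) (P Q : Polynomial ℕ),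
      ComputedInTime learn (fun i => P.eval (code i).length) ∧
      ∀ (n a b m : ℕ) (f g : (Fin n → Bool) → Bool), 1 ≤ a → 1 ≤ b →
        Unate g → LinearDNF p g →
        Q.eval (n + a) * (Finset.univ.filter fun x => f x ≠ g x).card ≤ 2 ^ n →
        Q.eval (n + a + Nat.clog 2 b) ≤ m →
        (1 - 1 / (b : ℝ)) * ((2 : ℝ) ^ n) ^ m ≤
          ((Finset.univ.filter fun ω : Fin m → Fin n → Bool =>
            err f (learn (n, a, smp f ω)) ≤ 1 / (a : ℝ)).card : ℝ) := by
  obtain ⟨q, P, hP⟩ := poly_learn p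
  obtain ⟨P', hP'⟩ := computedInTime_of_run (f := learn p) (g := fun _ => 0)
    ⟨q, P, fun a m => by simpa using hP a m⟩
  refine ⟨learn p, P', QP p, by simpa using hP', ?_⟩
  intro n a b m f g ha hb hu hg hfg hm
  exact main p n a b m f g ha hb hu hg hfg hm

end Pool.Agent.Results.MP_cba12a_lc.LinearDNF
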