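import Pool.Agent.H.MP_cba12a_lc.SQ.Main

/-!
# Statistical queries cannot learn monotone DNF formulas of polynomial size

For every `k`, learning the monotone DNF formulas with at most `n ^ (C * log k)` terms over the
uniform distribution takes more than `n ^ k` statistical queries of tolerance `n ^ (-k)`, even to
error `1 / 2 - n ^ (- 1 / 2 + ε)` and with success probability `n ^ (-k)`.
-/

namespace Pool.Agent.Results.MP_cba12a_lc.MonotoneSQ

open Finset Pool.Agent.H.MP_cba12a_lc.SQ

/-- There is a constant `C` such that for all `k ≥ 2` and `ε > 0` and all large `n`: every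
randomised statistical query learner making `n ^ k` queries of tolerance `n ^ (-k)` has error
more than `1 / 2 - n ^ (-1/2 + ε)` with probability at least `1 - n ^ (-k)` for some monotone DNF
target with at most `n ^ (C * log k)` terms and some valid oracle. -/
theorem result : ∃ C : ℕ, ∀ k : ℕ, 2 ≤ k → ∀ ε : ℝ, 0 < ε → ∃ n₀ : ℕ, ∀ n : ℕ, n₀ ≤ n →
    ∀ (Ω : Type) [Fintype Ω] (A : Ω → Learner n),
      ∃ F : List (Finset (Fin n)), F.length ≤ n ^ (C * Nat.log 2 k) ∧
        ∃ O : Query n → ℝ, Valid (mdnf F) (1 / (n : ℝ) ^ k) O ∧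
          ((univ.filter fun ω => err ((A ω).out ((A ω).answers O (n ^ k))) (mdnf F) ≤
            1 / 2 - (n : ℝ) ^ (-(1 / 2 : ℝ) + ε)).card : ℝ) ≤ Fintype.card Ω / (n : ℝ) ^ k :=
  main_bound

end Pool.Agent.Results.MP_cba12a_lc.MonotoneSQ
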