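import Pool.Agent.H.MP_cba12a_lc.RL.Main
import Pool.Agent.H.MP_cba12a_lc.RL.NumD

/-!
# Unate DNF formulas in which every variable occurs in at most `k` terms, `k` up to `2 ^ (c √(log n))`

One algorithm learns, from uniform random labelled examples only, all unate (for example monotone)
DNF formulas with any number of terms in which every variable occurs in at most `k` terms, in time
polynomial in `n` and `2 ^ (log (k log (n / ε)) * log (k log (n / ε) / ε))`. This is polynomial in
`n` for `k` and `1 / ε` up to `2 ^ (c (log n) ^ (1 / 2))`, and for `k` at most a power of `log n`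
and `1 / ε` up to `2 ^ (c log n / log log n)`.
-/

namespace Pool.Agent.Results.MP_cba12a_lc.ReadKDNF

open Pool.Agent.H.MP_5be563_lc.PT Pool.Agent.H.MP_cba12a_lc Pool.Agent.H.MP_cba12a_lc.RL

theorem computedInTime_mono {α β : Type} [Enc α] [Enc β] {f : α → β} {t t' : α → ℕ}
    (h : ComputedInTime f t) (htt : ∀ a, t a ≤ t' a) : ComputedInTime f t' := by
  obtain ⟨M, hM⟩ := h
  exact ⟨M, fun a => (hM a).map fun h => ⟨h.toEvalsTo, h.steps_le_m.trans (htt a)⟩⟩

/-- **Unate DNF formulas in which every variable occurs in at most `k` terms are learnable from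
uniform random examples in time polynomial in `n` and
`bd n k a = 2 ^ (clog₂ (k * clog₂ (n + a + 1)) * clog₂ (k * a * clog₂ (n + a + 1)))`.**

`learn (n, k, a, S)` is the hypothesis (a DNF formula) found from the labelled sample `S` with
accuracy parameter `ε = 1 / a`, in time polynomial in `bd n k a` and the length of the input
(numbers are written in unary). The target `f` is a unate function `g` computed by a DNF formula,
with any number of terms of any lengths, in which every variable occurs in at most `k` terms, or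
more generally differs from such a `g` on at most a fraction `1 / P (n + bd n k a)` of the cube. The
number of samples is polynomial in `n`, `bd n k a` and `log b`, where `1 / b` is the probability of
failure. The last part says that `bd n k a` is polynomial in `n` as long as `(log₂ k) ^ 2` and
`log₂ a * log₂ (2 k log₂ n)` are at most a constant times `log₂ n`. -/
theorem result :
    ∃ (learn : ℕ × ℕ × ℕ × Samples → List (List Lit)) (P : Polynomial ℕ),
      ComputedInTime learn (fun i => P.eval (bd i.1 i.2.1 i.2.2.1 + (code i).length)) ∧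
      (∀ (n k a b m : ℕ) (f g : (Fin n → Bool) → Bool), 1 ≤ k → 1 ≤ a → 1 ≤ b → Unate g →
        ReadK k g →
        P.eval (n + bd n k a) * (Finset.univ.filter fun x => f x ≠ g x).card ≤ 2 ^ n →
        P.eval (n + bd n k a + Nat.clog 2 b) ≤ m →
        (1 - 1 / (b : ℝ)) * ((2 : ℝ) ^ n) ^ m ≤
          ((Finset.univ.filter fun ω : Fin m → Fin n → Bool =>
            err f (learn (n, k, a, smp f ω)) ≤ 1 / (a : ℝ)).card : ℝ)) ∧
      ∀ c : ℕ, ∃ Q : Polynomial ℕ, ∀ n k a : ℕ,
        Nat.clog 2 k ^ 2 ≤ c * Nat.clog 2 (n + 2) →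
        Nat.clog 2 a * Nat.clog 2 (2 * k * Nat.clog 2 (n + 2)) ≤ c * Nat.clog 2 (n + 2) →
        bd n k a ≤ Q.eval n := by
  obtain ⟨c1, hc1⟩ : ∃ c : ℕ, c = 2 ^ 12 := ⟨_, rfl⟩
  obtain ⟨c2, hc2⟩ : ∃ c : ℕ, c = 2 ^ 20 := ⟨_, rfl⟩
  obtain ⟨c3, hc3⟩ : ∃ c : ℕ, c = 2 ^ 20 := ⟨_, rfl⟩
  obtain ⟨P1, hP1⟩ := time_learn c1 c2 c3
  obtain ⟨P2, hP2⟩ := exists_poly c1 c2
  refine ⟨RL.learn c1 c2 c3, P1 + P2, ?_, ?_, bd_poly⟩
  · refine computedInTime_mono hP1 fun i => ?_
    rw [Polynomial.eval_add]
    exact Nat.le_add_right _ _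
  · intro n k a b m f g hk ha hb hu hread hfg hm
    obtain ⟨h1, h2⟩ := hP2 n k a b hk ha
    refine main hc1 hc2 hc3 n k a b m f g hk ha hb hread hu ?_ ?_
    · refine le_trans (Nat.mul_le_mul_right _ ?_) hfg
      rw [Polynomial.eval_add]
      exact h1.trans (Nat.le_add_left _ _)
    · refine le_trans ?_ hm
      rw [Polynomial.eval_add]
      exact h2.trans (Nat.le_add_left _ _)

end Pool.Agent.Results.MP_cba12a_lc.ReadKDNF
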