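import Pool.Agent.H.MP_cba12a_lc.RM.Main

/-!
# Unate DNF formulas in which every variable occurs in at most `k` terms, in time `poly(n, 1/ε) k ^ O(log k)`

One algorithm learns, from uniform random labelled examples only, all unate (for example monotone)
DNF formulas with any number of terms in which every variable occurs in at most `k` terms, in time
polynomial in `n`, `1 / ε`, `log (1 / δ)` and `2 ^ (log₂ k) ^ 2`. For `k` up to `2 ^ (c √(log n))` this
is polynomial in `n`, `1 / ε` and `log (1 / δ)`.
-/

namespace Pool.Agent.Results.MP_cba12a_lc.ReadKPoly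

open Pool.Agent.H.MP_5be563_lc.PT Pool.Agent.H.MP_cba12a_lc Pool.Agent.H.MP_cba12a_lc.RM

theorem computedInTime_mono {α β : Type} [Enc α] [Enc β] {f : α → β} {t t' : α → ℕ}
    (h : ComputedInTime f t) (htt : ∀ a, t a ≤ t' a) : ComputedInTime f t' := by
  obtain ⟨M, hM⟩ := h
  exact ⟨M, fun a => (hM a).map fun h => ⟨h.toEvalsTo, h.steps_le_m.trans (htt a)⟩⟩

/-- **Unate DNF formulas in which every variable occurs in at most `k` terms are learnable from
uniform random examples in time polynomial in `n`, `1 / ε`, `log (1 / δ)` and `2 ^ (log₂ k) ^ 2`.**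

`learn (n, k, a, S)` is the hypothesis (a DNF formula) found from the labelled sample `S` with
accuracy parameter `ε = 1 / a`, in time polynomial in `2 ^ (clog 2 k) ^ 2` and the length of the
input (numbers are written in unary). The target `f` is a unate function `g` computed by a DNF
formula, with any number of terms of any lengths, in which every variable occurs in at most `k`
terms, or more generally differs from such a `g` on at most a fraction
`1 / P (n + a + 2 ^ (clog 2 k) ^ 2)` of the cube. The number of samples is polynomial in `n`, `a`,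
`2 ^ (clog 2 k) ^ 2` and `log b`, where `1 / b` is the probability of failure. -/
theorem result :
    ∃ (learn : ℕ × ℕ × ℕ × Samples → List (List Lit)) (P : Polynomial ℕ),
      ComputedInTime learn
        (fun i => P.eval (2 ^ (Nat.clog 2 i.2.1 ^ 2) + (code i).length)) ∧
      ∀ (n k a b m : ℕ) (f g : (Fin n → Bool) → Bool), 1 ≤ k → 1 ≤ a → 1 ≤ b → Unate g →
        ReadK k g →
        P.eval (n + a + 2 ^ (Nat.clog 2 k ^ 2)) *
          (Finset.univ.filter fun x => f x ≠ g x).card ≤ 2 ^ n →
        P.eval (n + a + 2 ^ (Nat.clog 2 k ^ 2) + Nat.clog 2 b) ≤ m →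
        (1 - 1 / (b : ℝ)) * ((2 : ℝ) ^ n) ^ m ≤
          ((Finset.univ.filter fun ω : Fin m → Fin n → Bool =>
            err f (learn (n, k, a, smp f ω)) ≤ 1 / (a : ℝ)).card : ℝ) := by
  obtain ⟨c1, hc1⟩ : ∃ c : ℕ, c = 1000 := ⟨_, rfl⟩
  obtain ⟨c2, hc2⟩ : ∃ c : ℕ, c = 2 ^ 20 := ⟨_, rfl⟩
  obtain ⟨c3, hc3⟩ : ∃ c : ℕ, c = 2 ^ 28 := ⟨_, rfl⟩
  obtain ⟨P1, hP1⟩ := time_learn c1 c2 c3
  obtain ⟨P2, hP2⟩ := exists_poly c1 c2
  refine ⟨RM.learn c1 c2 c3, P1 + P2, ?_, ?_⟩
  · refine computedInTime_mono hP1 fun i => ?_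
    rw [Polynomial.eval_add]
    exact Nat.le_add_right _ _
  · intro n k a b m f g hk ha hb hu hread hfg hm
    obtain ⟨h1, h2⟩ := hP2 n k a b hk ha
    refine main hc1 hc2 hc3 n k a b m f g hk ha hb hread hu ?_ ?_
    · refine le_trans (Nat.mul_le_mul_right _ ?_) hfg
      rw [Polynomial.eval_add]
      exact h1.trans (Nat.le_add_left _ _)
    · refine le_trans ?_ hm
      rw [Polynomial.eval_add]
      exact h2.trans (Nat.le_add_left _ _)

end Pool.Agent.Results.MP_cba12a_lc.ReadKPoly
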