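import Pool.Agent.H.MP_cba12a_lc.SR.Main

/-!
# DNF formulas with arbitrary variable sets and random negations

One algorithm, which sees only uniform random labelled examples, learns, for all `n`, `s`, `a`, `d`
and every choice of the variable sets of the `s` terms, the DNF formulas with these variable sets
for all but a `1 / d` fraction of the choices of the negations, to accuracy `1 / a`, in time
polynomial in `(n + s + a * d) ^ ⌈log₂ (a * d)⌉` and the length of the input: in polynomial time if
the accuracy and the exceptional fraction are constants.
-/

namespace Pool.Agent.Results.MP_cba12a_lc.SemirandomDNF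

open Pool.Agent.H.MP_5be563_lc.PT Pool.Agent.H.MP_cba12a_lc Pool.Agent.H.MP_cba12a_lc.SR

/-- **DNF formulas with worst-case variable sets and random negations are learnable from uniform
random examples in polynomial time, to every constant accuracy.**

`learn (n, s, a, d, S)` is the hypothesis (a DNF formula) found from the labelled sample `S`. Let
`L = (n + s + a * d) ^ ⌈log₂ (a * d)⌉`. The running time is at most a polynomial in `L` and the
length of the input. For all variable sets `V 0, …, V (s - 1)` (of any sizes, unknown to the
learner) there is an exceptional set `Bad` of at most a fraction `1 / d` of all sign patterns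
`σ : Fin s → Fin n → Bool` such that for every other `σ` the DNF formula
`g = sdnf V σ = ⋁ j, ⋀ i ∈ V j, (x i = σ j i)` is learned: for every `f` that differs from `g` on at
most a fraction `1 / Q (L + n + s + a * d)` of the cube (for example `f = g`) and every number
`m ≥ Q (L + n + s + a * d + ⌈log₂ b⌉)` of samples, for all but a `1 / b` fraction of the sequences
of `m` points the hypothesis found from their labels by `f` has error at most `1 / a`. -/
theorem result :
    ∃ (learn : ℕ × ℕ × ℕ × ℕ × Samples → List (List Lit)) (P Q : Polynomial ℕ),
      ComputedInTime learn (fun i => P.eval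
        ((i.1 + i.2.1 + i.2.2.1 * i.2.2.2.1) ^ Nat.clog 2 (i.2.2.1 * i.2.2.2.1) +
          (code i).length)) ∧
      ∀ (n s a d : ℕ) (V : Fin s → Finset (Fin n)), 1 ≤ a → 1 ≤ d →
        ∃ Bad : Finset (Fin s → Fin n → Bool),
          d * Bad.card ≤ Fintype.card (Fin s → Fin n → Bool) ∧
          ∀ σ, σ ∉ Bad → ∀ (b m : ℕ) (f : (Fin n → Bool) → Bool), 1 ≤ b →
            Q.eval ((n + s + a * d) ^ Nat.clog 2 (a * d) + (n + s + a * d)) *
              (Finset.univ.filter fun x => f x ≠ sdnf V σ x).card ≤ 2 ^ n →
            Q.eval ((n + s + a * d) ^ Nat.clog 2 (a * d) + (n + s + a * d) +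
              Nat.clog 2 b) ≤ m →
            (1 - 1 / (b : ℝ)) * ((2 : ℝ) ^ n) ^ m ≤
              ((Finset.univ.filter fun ω : Fin m → Fin n → Bool =>
                err f (learn (n, s, a, d, smp f ω)) ≤ 1 / (a : ℝ)).card : ℝ) := by
  obtain ⟨P, hP⟩ := computedInTime_of_run (f := learn) (g := TT)
    (run_search (g := TT) (by
      unfold TT
      exact poly_powTest (by fun_prop) (by fun_prop) (by fun_prop)) poly_learnT)
  exact ⟨learn, P, QP, hP, fun n s a d V ha hd => main n s a d V ha hd⟩

end Pool.Agent.Results.MP_cba12a_lc.SemirandomDNF
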