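import Pool.Agent.H.MP_cba12a_lc.SQ.Delta

/-!
# Statistical queries cannot learn small monotone DNF formulas

For every `K` and `γ > 0` (let `δ` be small), learning the monotone DNF formulas with at most `n ^ γ`
terms over the uniform distribution takes more than `n ^ K` statistical queries of tolerance
`n ^ (-K)`, even with a small advantage.
-/

namespace Pool.Agent.Results.MP_cba12a_lc.SmallMonotoneSQ

open Finset Pool.Agent.H.MP_cba12a_lc.SQ

/-- There is a constant `C` such that for all `K ≥ 2`, `0 < δ ≤ 1` and `ε > 0` and all large `n`: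
every randomised statistical query learner making `n ^ K` queries of tolerance `n ^ (-K)` has error
more than `1 / 2 - n ^ (-δ / 2 + ε)` with probability at least `1 - n ^ (-K)` for some monotone DNF
target with at most `n ^ (C * δ * log (K / δ))` terms and some valid oracle. -/
theorem result : ∃ C : ℝ, ∀ K : ℕ, 2 ≤ K → ∀ δ : ℝ, 0 < δ → δ ≤ 1 → ∀ ε : ℝ, 0 < ε →
    ∃ n₀ : ℕ, ∀ n : ℕ, n₀ ≤ n → ∀ (Ω : Type) [Fintype Ω] (A : Ω → Learner n),
      ∃ F : List (Finset (Fin n)),
        (F.length : ℝ) ≤ (n : ℝ) ^ (C * (δ * Real.logb 2 (K / δ))) ∧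
        ∃ O : Query n → ℝ, Valid (mdnf F) (1 / (n : ℝ) ^ K) O ∧
          ((univ.filter fun ω => err ((A ω).out ((A ω).answers O (n ^ K))) (mdnf F) ≤
            1 / 2 - (n : ℝ) ^ (-(δ / 2) + ε)).card : ℝ) ≤ Fintype.card Ω / (n : ℝ) ^ K :=
  delta_bound

end Pool.Agent.Results.MP_cba12a_lc.SmallMonotoneSQ
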