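import Pool.Agent.H.MP_cba12a_lc.X11.NumF
import Pool.Agent.H.MP_cba12a_lc.X11.Mono

/-!
# Unate DNF formulas in which any `t + 1` variables occur together in at most `d` terms

For all constants `t` and `d`, one algorithm learns, from uniform random labelled examples only,
all unate (for example monotone) DNF formulas with any number of terms in which any `t + 1`
variables occur together in at most `d` terms, in time polynomial in `n` and `1 / ε`.
-/

namespace Pool.Agent.Results.MP_cba12a_lc.UnateCodegreeDNF

open Pool.Agent.H.MP_5be563_lc.PT Pool.Agent.H.MP_cba12a_lc

/-- **For all constants `t` and `d`, unate DNF formulas in which any `t + 1` variables occur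
together in at most `d` terms are learnable from uniform random examples in polynomial time.**

`learn (n, a, S)` is the hypothesis (a DNF formula) found from the labelled sample `S` with
accuracy parameter `ε = 1 / a`, in time polynomial in the length of the input (numbers are written
in unary). The target `f` is a unate function `g` computed by a DNF formula, with any number of
terms of any lengths, in which any `t + 1` different variables occur together in at most `d` terms
(for `t = 0`: each variable occurs in at most `d` terms; for `d = 1`: any two terms have at most
`t` variables in common), or more generally differs from such a `g` on at most a fraction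
`1 / Q (n + a)` of the cube. The number of samples is polynomial in `n`, `a` and `log b`, where
`1 / b` is the probability of failure. -/
theorem result (t d : ℕ) :
    ∃ (learn : ℕ × ℕ × Samples → List (List Lit)) (P Q : Polynomial ℕ),
      ComputedInTime learn (fun i => P.eval (code i).length) ∧
      ∀ (n a b m : ℕ) (f g : (Fin n → Bool) → Bool), 1 ≤ a → 1 ≤ b → Unate g → CodDNF t d g →
        Q.eval (n + a) * (Finset.univ.filter fun x => f x ≠ g x).card ≤ 2 ^ n →
        Q.eval (n + a + Nat.clog 2 b) ≤ m →
        (1 - 1 / (b : ℝ)) * ((2 : ℝ) ^ n) ^ m ≤
          ((Finset.univ.filter fun ω : Fin m → Fin n → Bool =>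
            err f (learn (n, a, smp f ω)) ≤ 1 / (a : ℝ)).card : ℝ) := by
  obtain ⟨c0, c, hd0, hTT, hc0⟩ := exists_cst11 (t + 1) (d + 1) (by omega) (by omega)
  obtain ⟨q, P, hP⟩ := poly_learn11 (t + 1) (d + 1) c0 c hTT
  obtain ⟨P', hP'⟩ := computedInTime_of_run (f := learn11 (t + 1) (d + 1) c0 c) (g := fun _ => 0)
    ⟨q, P, fun a m => by simpa using hP a m⟩
  refine ⟨learn11 (t + 1) (d + 1) c0 c, P', QP11 c0 c, by simpa using hP', ?_⟩
  intro n a b m f g ha hb hu hg hfg hm
  exact main11 (t + 1) (d + 1) c0 c hd0 hc0 n a b m f g ha hb hu hg.mono11 hfg hm

end Pool.Agent.Results.MP_cba12a_lc.UnateCodegreeDNF
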