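import Pool.Agent.H.MP_cba12a_lc.Infl

/-!
# Unate DNF formulas with `s` terms from uniform random examples in time `poly (n, 1 / ε, s ^ log s)`

One algorithm, which sees only uniform random labelled examples, learns every unate (for example
monotone) `s`-term DNF formula over `n` variables to accuracy `ε = 1 / a` with confidence
`1 - δ = 1 - 1 / b` in time polynomial in `n`, `s ^ ⌈log₂ s⌉`, `1 / ε` and `log (1 / δ)`. It is
enough that the target agrees with such a formula on all but a fraction `ε² / (8192 s (n + 1))` of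
the cube.
-/

namespace Pool.Agent.Results.MP_cba12a_lc.UnateDNF

open Pool.Agent.H.MP_5be563_lc.PT Pool.Agent.H.MP_cba12a_lc

@[fun_prop]
theorem poly_pow {α : Type} [Enc α] {f : α → ℕ} (hf : Poly f) (k : ℕ) :
    Poly (fun a => f a ^ k) := by
  induction k with
  | zero =>
    simp only [pow_zero]
    fun_prop
  | succ k ih =>
    simp only [pow_succ]
    fun_prop

/-- the learner, with the value `T = s ^ Nat.clog 2 s` as a further argument -/
def learnT (p : (ℕ × ℕ × ℕ × Samples) × ℕ) : List (List Lit) :=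
  core p.1.2.1 p.1.2.2.1
    ((4 * p.1.2.1) ^ 6 * (p.2 ^ 3 * p.1.2.1 ^ 3) * (2 * p.1.2.1 * p.2 *
      (4 * (1024 * p.1.2.1 * p.1.2.1 * p.1.2.2.1 * p.1.2.2.1 * (p.1.1 + 1))) ^ 4) ^ 3 *
        (4 * p.1.2.1 * p.1.2.2.1) ^ 10)
    (3 * (Nat.clog 2 p.1.2.1 + 1)) (infl p.1.1 p.1.2.1 p.1.2.2.1 p.1.2.2.2) p.1.2.2.2

theorem poly_learnT : Poly learnT := by
  unfold learnT
  fun_prop

/-- the learner -/
def learn (p : ℕ × ℕ × ℕ × Samples) : List (List Lit) := learnT (p, p.2.1 ^ Nat.clog 2 p.2.1)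

theorem mu_errE_eq {n : ℕ} (f : (Fin n → Bool) → Bool) (H : List (List Lit)) :
    mu (errE f H) = err f H := by
  unfold mu err ct
  rw [Fintype.card_fun, Fintype.card_fin, Fintype.card_bool]
  push_cast
  congr 2
  refine congrArg Finset.card ?_
  ext x
  simp only [Finset.mem_filter, Finset.mem_univ, true_and, errE_iff]
  exact ne_comm

/-- **Unate DNF formulas with `s` terms are learnable from uniform random examples in time
polynomial in `n`, `s ^ ⌈log₂ s⌉`, `1 / ε` and `log (1 / δ)`.**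

`learn (n, s, a, S)` is the hypothesis (a DNF formula) found from the labelled sample `S` with
accuracy parameter `ε = 1 / a`. The target `f` is a unate function `g` computed by an `s`-term DNF
formula, or more generally differs from such a `g` on at most a fraction
`1 / (8192 s a² (n + 1))` of the cube. -/
theorem result :
    ∃ (learn : ℕ × ℕ × ℕ × Samples → List (List Lit)) (P : Polynomial ℕ),
      ComputedInTime learn (fun i => P.eval (i.2.1 ^ Nat.clog 2 i.2.1 + (code i).length)) ∧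
      ∀ (n s a b m : ℕ) (f g : (Fin n → Bool) → Bool), 1 ≤ s → 1 ≤ a → 1 ≤ b → IsDNF s g →
        Unate g →
        8192 * s * a ^ 2 * (n + 1) * (Finset.univ.filter fun x => f x ≠ g x).card ≤ 2 ^ n →
        2 ^ 34 * s ^ 3 * a ^ 5 * (n + 1) ^ 2 * (n + 1 + Nat.clog 2 b) ≤ m →
        (1 - 1 / (b : ℝ)) * ((2 : ℝ) ^ n) ^ m ≤
          ((Finset.univ.filter fun ω : Fin m → Fin n → Bool =>
            err f (learn (n, s, a, smp f ω)) ≤ 1 / (a : ℝ)).card : ℝ) := by
  obtain ⟨P, hP⟩ := computedInTime_of_run (f := learn) (g := fun p => p.2.1 ^ Nat.clog 2 p.2.1)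
    (run_search (g := fun p : ℕ × ℕ × ℕ × Samples => p.2.1 ^ Nat.clog 2 p.2.1)
      (poly_powTest (by fun_prop) (by fun_prop) (by fun_prop)) poly_learnT)
  refine ⟨learn, P, hP, ?_⟩
  intro n s a b m f g hs ha hb hg hu hfg hm
  classical
  have hs' : (1 : ℝ) ≤ s := by exact_mod_cast hs
  have ha' : (1 : ℝ) ≤ a := by exact_mod_cast ha
  have hsa : (1 : ℝ) ≤ s * a := by nlinarith
  have hn0 : (0 : ℝ) ≤ n := by positivity
  have hn1 : (1 : ℝ) ≤ (n : ℝ) + 1 := by linarith
  have hfg' : (8192 * s * a ^ 2 * (n + 1) : ℝ) * (Finset.univ.filter fun x => f x ≠ g x).card ≤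
      2 ^ n := by exact_mod_cast hfg
  have hm0 : 0 < m := by
    have : 0 < 2 ^ 34 * s ^ 3 * a ^ 5 * (n + 1) ^ 2 * (n + 1 + Nat.clog 2 b) := by positivity
    omega
  have hXY : (256 * s * a ^ 2 : ℝ) ≤ 8192 * s * a ^ 2 * (n + 1) := by
    have h1 : (0 : ℝ) < s * a ^ 2 := by positivity
    nlinarith
  have h256 : (1 : ℝ) ≤ 256 * s * a ^ 2 := by nlinarith [sq_nonneg (a : ℝ)]
  refine rep_of_large f (16 * s * a) b hb (1 / (8192 * s * a ^ 2 * (n + 1))) (by positivity)
    ?_ ?_ _ ?_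
  · rw [div_le_one (by positivity)]
    linarith
  · -- sample size
    have hm' : (2 : ℝ) ^ 34 * s ^ 3 * a ^ 5 * (n + 1) ^ 2 * (n + 1 + Nat.clog 2 b) ≤ m := by
      exact_mod_cast hm
    have hc0 : (0 : ℝ) ≤ Nat.clog 2 b := by positivity
    have h1 : (2 : ℝ) ^ 34 * s ^ 3 * a ^ 5 * (n + 1) ^ 2 * (n + 1 + Nat.clog 2 b) *
        (1 / (8192 * s * a ^ 2 * (n + 1))) ^ 2 = 256 * (s * a) * (n + 1 + Nat.clog 2 b) := by
      field_simp
      norm_num
    have h2 : (2 : ℝ) ^ 34 * s ^ 3 * a ^ 5 * (n + 1) ^ 2 * (n + 1 + Nat.clog 2 b) *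
        (1 / (8192 * s * a ^ 2 * (n + 1))) ^ 2 ≤ m * (1 / (8192 * s * a ^ 2 * (n + 1))) ^ 2 :=
      mul_le_mul_of_nonneg_right hm' (by positivity)
    rw [h1] at h2
    refine le_trans ?_ h2
    push_cast
    have h3 : (2 * (n : ℝ) + 1) * (16 * s * a + 1) ≤ (2 * n + 1) * (17 * (s * a)) := by
      refine mul_le_mul_of_nonneg_left ?_ (by linarith)
      linarith
    have h4 : (1 : ℝ) + Nat.clog 2 b ≤ (s * a) * (1 + Nat.clog 2 b) := by nlinarith
    nlinarith [mul_nonneg hn0 (show (0 : ℝ) ≤ s * a by linarith),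
      mul_nonneg hc0 (show (0 : ℝ) ≤ s * a by linarith)]
  · intro ω hω
    rw [← mu_errE_eq]
    obtain ⟨G, hG, hGV, hGe⟩ := exists_reference hm0 hs ha hg hu hfg' hω
    have hω' : Rep f ω (16 * s * a) (1 / (256 * s * a ^ 2)) := by
      intro v C h hC hr hh
      exact (hω v C h hC hr hh).trans_le (one_div_le_one_div_of_le (by positivity) hXY)
    set D := 1024 * s * s * a * a * (n + 1) with hD
    have hD1 : 1 ≤ D := Nat.one_le_iff_ne_zero.2 (by positivity)
    have hl1 : 2 * D ≤ 2 ^ (Nat.clog 2 D + 1) := by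
      rw [pow_succ, mul_comm]
      exact Nat.mul_le_mul_right 2 (Nat.le_pow_clog (by norm_num) D)
    have hl2 : 2 ^ (Nat.clog 2 D + 1) ≤ 4 * D := by
      rw [pow_succ]
      have := two_pow_clog_le D hD1
      omega
    have hVl := length_infl_le hm0 hs ha hg hfg' hω hl1
    have hb2 := bound2 hs rfl (by omega : 1 ≤ Nat.clog 2 D + 1) hl2 hVl
    refine core_error (c := Nat.clog 2 s + 1) (G := G) hm0 hs ha
      (fun l hl => ((mem_infl_iff hm0 hs ha).1 hl).1) ((nodup_allLits n).filter _) hG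
      hGV hGe hω' ?_ rfl ?_ ?_
    · rw [pow_succ, mul_comm]
      exact Nat.mul_le_mul_right 2 (Nat.le_pow_clog (by norm_num) s)
    · refine hb2.trans ?_
      exact Nat.le_mul_of_pos_right _ (by positivity)
    · exact Nat.le_mul_of_pos_left _ (by positivity)

end Pool.Agent.Results.MP_cba12a_lc.UnateDNF
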