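import Pool.Agent.H.MP_cba12a_lc.P9.Fin10

/-!
# Unate DNF formulas in which any two terms share at most `t` variables, for constant `t`

For every constant `t`, one algorithm learns, from uniform random labelled examples only, all
unate (for example monotone) DNF formulas with any number of terms in which any two terms have at
most `t` variables in common, in time polynomial in `n` and `1 / ε`.
-/

namespace Pool.Agent.Results.MP_cba12a_lc.UnateOverlapDNF

open Pool.Agent.H.MP_5be563_lc.PT Pool.Agent.H.MP_cba12a_lc

/-- **For every constant `t`, unate DNF formulas of which any two terms have at most `t` variables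
in common are learnable from uniform random examples in polynomial time.**

`learn (n, a, S)` is the hypothesis (a DNF formula) found from the labelled sample `S` with
accuracy parameter `ε = 1 / a`, in time polynomial in the length of the input (numbers are written
in unary). The target `f` is a unate function `g` computed by a DNF formula, with any number of
terms of any lengths, in which any two different terms have at most `t` variables in common, or
more generally differs from such a `g` on at most a fraction `1 / Q (n + a)` of the cube. The
number of samples is polynomial in `n`, `a` and `log b`, where `1 / b` is the probability of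
failure. -/
theorem result (t : ℕ) :
    ∃ (learn : ℕ × ℕ × Samples → List (List Lit)) (P Q : Polynomial ℕ),
      ComputedInTime learn (fun i => P.eval (code i).length) ∧
      ∀ (n a b m : ℕ) (f g : (Fin n → Bool) → Bool), 1 ≤ a → 1 ≤ b → Unate g → PairDNF t g →
        Q.eval (n + a) * (Finset.univ.filter fun x => f x ≠ g x).card ≤ 2 ^ n →
        Q.eval (n + a + Nat.clog 2 b) ≤ m →
        (1 - 1 / (b : ℝ)) * ((2 : ℝ) ^ n) ^ m ≤
          ((Finset.univ.filter fun ω : Fin m → Fin n → Bool =>
            err f (learn (n, a, smp f ω)) ≤ 1 / (a : ℝ)).card : ℝ) := by
  obtain ⟨c0, hc0⟩ := exists_par10 (t + 1) (by omega)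
  obtain ⟨q, P, hP⟩ := poly_learn10 (t + 1) c0
  obtain ⟨P', hP'⟩ := computedInTime_of_run (f := learn10 (t + 1) c0) (g := fun _ => 0)
    ⟨q, P, fun a m => by simpa using hP a m⟩
  refine ⟨learn10 (t + 1) c0, P', QP10 (t + 1) c0, by simpa using hP', ?_⟩
  intro n a b m f g ha hb hu hg hfg hm
  exact main10 (t + 1) c0 hc0 n a b m f g ha hb hu (hg.mono10 (Nat.le_succ t)) hfg hm

end Pool.Agent.Results.MP_cba12a_lc.UnateOverlapDNF
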