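import Pool.Agent.H.MP_cba12a_lc.Final4

/-!
# Unate DNF formulas in which every variable occurs in at most `k` terms

One algorithm, which sees only uniform random labelled examples, learns every unate (for example
monotone) DNF formula over `n` variables in which every variable occurs in at most `k` terms, the
number of terms being arbitrary, to accuracy `ε = 1 / a` with confidence `1 - δ = 1 - 1 / b`, in
time polynomial in `n ^ ⌈log₂ k⌉`, `n`, `k`, `1 / ε` and `log (1 / δ)`. It is enough that the target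
agrees with such a formula on all but a fraction `ε³ / (65536 k (n + 1)²)` of the cube.
-/

namespace Pool.Agent.Results.MP_cba12a_lc.UnateReadK

open Pool.Agent.H.MP_5be563_lc.PT Pool.Agent.H.MP_cba12a_lc

@[fun_prop]
theorem poly_pow {α : Type} [Enc α] {f : α → ℕ} (hf : Poly f) (k : ℕ) :
    Poly (fun a => f a ^ k) := by
  induction k with
  | zero =>
    simp only [pow_zero]
    fun_prop
  | succ k ih =>
    simp only [pow_succ]
    fun_prop

@[fun_prop]
theorem poly_fin4 {α : Type} [Enc α] {a : α → ℕ} {S : α → Samples} {H : α → List (List Lit)}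
    (ha : Poly a) (hS : Poly S) (hH : Poly H) : Poly (fun p => fin4 (a p) (S p) (H p)) := by
  unfold fin4
  fun_prop

/-- the learner, with the value `T = n ^ Nat.clog 2 k` as a further argument -/
def learnT (p : (ℕ × ℕ × ℕ × Samples) × ℕ) : List (List Lit) :=
  fin4 p.1.2.2.1 p.1.2.2.2
    (core4 (1024 * p.1.2.2.1 ^ 3 * (p.1.1 + 1) * p.1.2.1)
      (16 * p.1.2.2.1 ^ 2 * (p.1.1 + 1) * p.1.2.1)
      (32 * p.1.2.2.1 ^ 2 * (p.1.1 + 1) * p.1.2.1)
      ((2 * p.1.1 + 1) ^ 3 * (2 * p.1.2.1) ^ 6 * (p.2 + 1) ^ 3 *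
        (8 * p.1.2.2.1 ^ 2 * (p.1.1 + 1) * p.1.2.1) ^ 10)
      (3 * (Nat.clog 2 p.1.2.1 + 1))
      (orient p.1.1 (4096 * p.1.2.2.1 ^ 3 * (p.1.1 + 1) ^ 2 * p.1.2.1) p.1.2.2.2) p.1.2.2.2)

theorem poly_learnT : Poly learnT := by
  unfold learnT
  fun_prop

/-- the learner -/
def learn (p : ℕ × ℕ × ℕ × Samples) : List (List Lit) := learnT (p, p.1 ^ Nat.clog 2 p.2.1)

theorem bound1 (n s u : ℕ) (hu : 2 ^ u ≤ 2 * s) :
    (2 * n + 1) ^ (3 * (u + 1)) ≤ (2 * n + 1) ^ 3 * (2 * s) ^ 6 * (n ^ u + 1) ^ 3 := by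
  have h1 : (2 * n + 1) ^ u ≤ 2 ^ u * 2 ^ u * (n ^ u + 1) := by
    rcases Nat.eq_zero_or_pos n with h | h
    · subst h
      simp only [mul_zero, zero_add, one_pow]
      have : 0 < 2 ^ u * 2 ^ u * (0 ^ u + 1) := by positivity
      omega
    · calc (2 * n + 1) ^ u ≤ (2 * 2 * n) ^ u := Nat.pow_le_pow_left (by omega) u
        _ = 2 ^ u * 2 ^ u * n ^ u := by rw [mul_pow, mul_pow]
        _ ≤ _ := Nat.mul_le_mul_left _ (by omega)
  calc (2 * n + 1) ^ (3 * (u + 1)) = (2 * n + 1) ^ 3 * ((2 * n + 1) ^ u) ^ 3 := by ring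
    _ ≤ (2 * n + 1) ^ 3 * (2 ^ u * 2 ^ u * (n ^ u + 1)) ^ 3 :=
        Nat.mul_le_mul_left _ (Nat.pow_le_pow_left h1 3)
    _ = (2 * n + 1) ^ 3 * (2 ^ u) ^ 6 * (n ^ u + 1) ^ 3 := by ring
    _ ≤ _ := by gcongr

theorem mu_errE_eq {n : ℕ} (f : (Fin n → Bool) → Bool) (H : List (List Lit)) :
    mu (errE f H) = err f H := by
  unfold mu err ct
  rw [Fintype.card_fun, Fintype.card_fin, Fintype.card_bool]
  push_cast
  congr 2
  refine congrArg Finset.card ?_
  ext x
  simp only [Finset.mem_filter, Finset.mem_univ, true_and, errE_iff]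
  exact ne_comm


theorem num1 {x a k : ℝ} (hx : 1 ≤ x) (ha : 1 ≤ a) (hk : 1 ≤ k) :
    x * (1 / (4096 * a ^ 3 * x ^ 2 * k)) ≤ 1 / (2048 * a ^ 3 * x * k) := by
  have h1 : x * (1 / (4096 * a ^ 3 * x ^ 2 * k)) = 1 / 2 * (1 / (2048 * a ^ 3 * x * k)) := by
    field_simp; norm_num
  rw [h1]
  have : 0 < 1 / (2048 * a ^ 3 * x * k) := by positivity
  linarith

theorem num2 {x a k : ℝ} (hx : 1 ≤ x) (ha : 1 ≤ a) (hk : 1 ≤ k) :
    1 / (16 * (4096 * a ^ 3 * x ^ 2 * k)) ≤ 1 / (2048 * a ^ 3 * x * k) := by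
  refine one_div_le_one_div_of_le (by positivity) ?_
  have h1 : x ≤ x ^ 2 := by nlinarith
  have h2 : (0 : ℝ) < a ^ 3 * k := by positivity
  have h3 : a ^ 3 * k * x ≤ a ^ 3 * k * x ^ 2 := mul_le_mul_of_nonneg_left h1 h2.le
  nlinarith

theorem num3 {x a k : ℝ} (hx : 1 ≤ x) (ha : 1 ≤ a) (hk : 1 ≤ k) :
    256 * (1 / (2048 * a ^ 3 * x * k)) ≤ 1 / (8 * a ^ 2 * x * k) := by
  have h1 : 256 * (1 / (2048 * a ^ 3 * x * k)) = 1 / (8 * a ^ 3 * x * k) := by
    field_simp; norm_num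
  rw [h1]
  refine one_div_le_one_div_of_le (by positivity) ?_
  have h2 : a ^ 2 ≤ a ^ 3 := by nlinarith [sq_nonneg a]
  have h3 : (0 : ℝ) < x * k := by positivity
  have h4 : x * k * a ^ 2 ≤ x * k * a ^ 3 := mul_le_mul_of_nonneg_left h2 h3.le
  nlinarith

theorem num4 {n a k c : ℝ} (hn : 0 ≤ n) (ha : 1 ≤ a) (hk : 1 ≤ k) (hc : 0 ≤ c) :
    4 * ((2 * n + 1) * (32 * a ^ 2 * (n + 1) * k + 1) + 1 + c) ≤
      512 * (a ^ 2 * ((n + 1) * k)) * (n + 1 + c) := by
  have ha2 : (1 : ℝ) ≤ a ^ 2 := one_le_pow₀ ha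
  have hnk : (1 : ℝ) ≤ (n + 1) * k := by nlinarith
  obtain ⟨w, hw⟩ : ∃ w, w = a ^ 2 * ((n + 1) * k) := ⟨_, rfl⟩
  have hw1 : 1 ≤ w := by rw [hw]; nlinarith
  have e : 32 * a ^ 2 * (n + 1) * k = 32 * w := by rw [hw]; ring
  rw [e, ← hw]
  nlinarith [mul_nonneg hn (show (0 : ℝ) ≤ w - 1 by linarith),
    mul_nonneg hc (show (0 : ℝ) ≤ w - 1 by linarith), mul_nonneg hn hn]

/-- **Unate DNF formulas in which every variable occurs in at most `k` terms are learnable from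
uniform random examples in time polynomial in `n ^ ⌈log₂ k⌉`, `n`, `k`, `1 / ε`, `log (1 / δ)`.**

`learn (n, k, a, S)` is the hypothesis (a DNF formula) found from the labelled sample `S` with
accuracy parameter `ε = 1 / a`. The target `f` is a unate function `g` computed by a DNF formula
in which every variable occurs in at most `k` terms, or more generally differs from such a `g` on
at most a fraction `1 / (65536 a³ (n + 1)² k)` of the cube. -/
theorem result :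
    ∃ (learn : ℕ × ℕ × ℕ × Samples → List (List Lit)) (P : Polynomial ℕ),
      ComputedInTime learn (fun i => P.eval (i.1 ^ Nat.clog 2 i.2.1 + (code i).length)) ∧
      ∀ (n k a b m : ℕ) (f g : (Fin n → Bool) → Bool), 1 ≤ k → 1 ≤ a → 1 ≤ b → ReadK k g →
        Unate g →
        65536 * a ^ 3 * (n + 1) ^ 2 * k * (Finset.univ.filter fun x => f x ≠ g x).card ≤ 2 ^ n →
        2 ^ 41 * a ^ 8 * (n + 1) ^ 5 * k ^ 3 * (n + 1 + Nat.clog 2 b) ≤ m →
        (1 - 1 / (b : ℝ)) * ((2 : ℝ) ^ n) ^ m ≤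
          ((Finset.univ.filter fun ω : Fin m → Fin n → Bool =>
            err f (learn (n, k, a, smp f ω)) ≤ 1 / (a : ℝ)).card : ℝ) := by
  obtain ⟨P, hP⟩ := computedInTime_of_run (f := learn) (g := fun p => p.1 ^ Nat.clog 2 p.2.1)
    (run_search (g := fun p : ℕ × ℕ × ℕ × Samples => p.1 ^ Nat.clog 2 p.2.1)
      (poly_powTest (by fun_prop) (by fun_prop) (by fun_prop)) poly_learnT)
  refine ⟨learn, P, hP, ?_⟩
  intro n k a b m f g hk ha hb hread hu hfg hm
  classical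
  have hk' : (1 : ℝ) ≤ k := by exact_mod_cast hk
  have ha' : (1 : ℝ) ≤ a := by exact_mod_cast ha
  have hn0 : (0 : ℝ) ≤ n := by positivity
  have hn1 : (1 : ℝ) ≤ (n : ℝ) + 1 := by linarith
  set Θ : ℕ := 4096 * a ^ 3 * (n + 1) ^ 2 * k with hΘ
  have hΘ0 : 0 < Θ := by rw [hΘ]; positivity
  have hΘr : (Θ : ℝ) = 4096 * a ^ 3 * (n + 1) ^ 2 * k := by rw [hΘ]; push_cast; ring
  have hdst : dst f g ≤ 1 / (16 * Θ) := by
    unfold dst
    rw [hΘr, div_le_div_iff₀ (by positivity) (by positivity), one_mul, mul_comm]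
    have : (65536 * a ^ 3 * (n + 1) ^ 2 * k : ℝ) *
        ((Finset.univ.filter fun x => f x ≠ g x).card : ℝ) ≤ 2 ^ n := by exact_mod_cast hfg
    linarith
  have hm0 : 0 < m := by
    have : 0 < 2 ^ 41 * a ^ 8 * (n + 1) ^ 5 * k ^ 3 * (n + 1 + Nat.clog 2 b) := by positivity
    omega
  set R : ℕ := 32 * a ^ 2 * (n + 1) * k with hR
  have hRr : (R : ℝ) = 32 * a ^ 2 * (n + 1) * k := by rw [hR]; push_cast; ring
  refine rep_of_large f R b hb (1 / (16 * Θ)) (by positivity) ?_ ?_ _ ?_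
  · rw [div_le_one (by positivity)]
    have : (1 : ℝ) ≤ Θ := by exact_mod_cast hΘ0
    linarith
  · -- sample size
    have hm' : (2 : ℝ) ^ 41 * a ^ 8 * (n + 1) ^ 5 * k ^ 3 * (n + 1 + Nat.clog 2 b) ≤ m := by
      exact_mod_cast hm
    have hc0 : (0 : ℝ) ≤ Nat.clog 2 b := by positivity
    have h1 : (2 : ℝ) ^ 41 * a ^ 8 * (n + 1) ^ 5 * k ^ 3 * (n + 1 + Nat.clog 2 b) *
        (1 / (16 * Θ)) ^ 2 = 512 * (a ^ 2 * ((n + 1) * k)) * (n + 1 + Nat.clog 2 b) := by
      rw [hΘr]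
      field_simp
      norm_num
    have h2 : (2 : ℝ) ^ 41 * a ^ 8 * (n + 1) ^ 5 * k ^ 3 * (n + 1 + Nat.clog 2 b) *
        (1 / (16 * Θ)) ^ 2 ≤ m * (1 / (16 * Θ)) ^ 2 :=
      mul_le_mul_of_nonneg_right hm' (by positivity)
    rw [h1] at h2
    refine le_trans ?_ h2
    rw [hRr]
    exact num4 hn0 ha' hk' hc0
  · intro ω hω
    rw [← mu_errE_eq]
    obtain ⟨o, ho⟩ := exists_orient hu
    obtain ⟨q, G, hq, hfq, hqG, hGk, hGV, hGo⟩ :=
      exists_reference4 hm0 hΘ0 hu ho hread hdst hω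
    obtain ⟨hV1, _⟩ := orient_facts hm0 hΘ0 ho hdst hω
    set τ : ℝ := 1 / (2048 * a ^ 3 * (n + 1) * k) with hτ
    set ρ : ℝ := 1 / (8 * a ^ 2 * (n + 1) * k) with hρ
    have hτ0 : 0 < τ := by rw [hτ]; positivity
    have hfq' : dst f q ≤ τ := by
      refine hfq.trans ?_
      rw [hΘr, hτ]
      exact num1 hn1 ha' hk'
    have hω' : Rep f ω R τ := by
      intro v C h hC hr hh
      refine (hω v C h hC hr hh).trans_le ?_
      rw [hΘr, hτ]
      exact num2 hn1 ha' hk'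
    have hρτ : 256 * τ ≤ ρ := by
      rw [hτ, hρ]
      exact num3 hn1 ha' hk'
    set u := Nat.clog 2 k with hu'
    have hclog := two_pow_clog_le k hk
    have hc : (27 / 64 : ℝ) ^ (u + 1) * k < 1 := by
      have h1 : (k : ℝ) ≤ 2 ^ (u + 1) := by
        have h2 : k ≤ 2 ^ u := Nat.le_pow_clog (by norm_num) k
        have h3 : (k : ℝ) ≤ 2 ^ u := by exact_mod_cast h2
        rw [pow_succ]
        have : (0 : ℝ) < 2 ^ u := by positivity
        linarith
      calc (27 / 64 : ℝ) ^ (u + 1) * k ≤ (27 / 64 : ℝ) ^ (u + 1) * 2 ^ (u + 1) :=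
            mul_le_mul_of_nonneg_left h1 (by positivity)
        _ = (27 / 32) ^ (u + 1) := by rw [← mul_pow]; norm_num
        _ < 1 := pow_lt_one₀ (by norm_num) (by norm_num) (by omega)
    set N : ℕ := (2 * n + 1) ^ 3 * (2 * k) ^ 6 * (n ^ u + 1) ^ 3 *
      (8 * a ^ 2 * (n + 1) * k) ^ 10 with hN
    have hVlen : (orient n Θ (smp f ω)).length ≤ 2 * n := by
      unfold orient
      exact (List.length_filter_le _ _).trans (le_of_eq (length_allLits n))
    have hN1 : ((orient n Θ (smp f ω)).length + 1) ^ (3 * (u + 1)) ≤ N := by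
      calc ((orient n Θ (smp f ω)).length + 1) ^ (3 * (u + 1)) ≤
          (2 * n + 1) ^ (3 * (u + 1)) := Nat.pow_le_pow_left (by omega) _
        _ ≤ (2 * n + 1) ^ 3 * (2 * k) ^ 6 * (n ^ u + 1) ^ 3 := bound1 n k u hclog
        _ ≤ N := Nat.le_mul_of_pos_right _ (by positivity)
    have hN2 : (1 / ρ) ^ 10 ≤ (N : ℝ) := by
      have h1 : 1 / ρ = ((8 * a ^ 2 * (n + 1) * k : ℕ) : ℝ) := by
        rw [hρ]
        push_cast
        rw [one_div_one_div]
      rw [h1]
      have h2 : (8 * a ^ 2 * (n + 1) * k) ^ 10 ≤ N := by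
        rw [hN]
        exact Nat.le_mul_of_pos_left _ (by positivity)
      exact_mod_cast h2
    set A : ℕ := 1024 * a ^ 3 * (n + 1) * k with hA
    set B : ℕ := 16 * a ^ 2 * (n + 1) * k with hB
    have hAr : (A : ℝ) = 1024 * a ^ 3 * (n + 1) * k := by rw [hA]; push_cast; ring
    have hBr : (B : ℝ) = 16 * a ^ 2 * (n + 1) * k := by rw [hB]; push_cast; ring
    have hA0 : 0 < A := by rw [hA]; positivity
    have hB0 : 0 < B := by rw [hB]; positivity
    have hRτ : (R : ℝ) * τ = 1 / (64 * a) := by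
      rw [hRr, hτ]; field_simp; norm_num
    have hRB : (R : ℝ) * (1 / B) = 2 := by
      rw [hRr, hBr]; field_simp; norm_num
    have hRA : (R : ℝ) * (1 / A) = 1 / (32 * a) := by
      rw [hRr, hAr]; field_simp; norm_num
    have h64 : (1 : ℝ) / (64 * a) < 1 := by
      rw [div_lt_one (by positivity)]; linarith
    obtain ⟨hFP, hiso⟩ := core4_spec (A := A) (B := B) (N := N) (R := R) (c := u + 1) (k := k)
      (V := orient n Θ (smp f ω)) (τ := τ) (ρ := ρ) hm0 hτ0 hρτ hk hV1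
      ((nodup_allLits n).filter _) hq hqG hGk hGV hfq' hω' hc hN1 hN2 hA0 hB0
      (le_of_eq (by rw [hτ, hAr]; field_simp; norm_num))
      (le_of_eq (by rw [hρ, hBr]; field_simp; norm_num))
      (by rw [mul_sub, hRτ, hRB]; linarith)
    refine fin4_error (q := q) hm0 ha hτ0 ?_ hω' hfq' ?_ ?_
    · have h1 : 32 * (a : ℝ) * τ = 1 / (64 * a ^ 2 * (n + 1) * k) := by
        rw [hτ]; field_simp; norm_num
      rw [h1]
      have h2 : (1 : ℝ) ≤ (64 * a ^ 2 * (n + 1) * k) := by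
        have h3 : 1 ≤ 64 * a ^ 2 * (n + 1) * k := Nat.succ_le_of_lt (by positivity)
        exact_mod_cast h3
      rw [div_le_one (by positivity)]
      exact h2
    · refine hFP.trans ?_
      rw [mul_add, hRA, hRτ]
      have e1 : (1 : ℝ) / (32 * a) + 1 / (64 * a) = 3 / 64 * (1 / a) := by field_simp; norm_num
      have e2 : (1 : ℝ) / (16 * a) = 1 / 16 * (1 / a) := by field_simp
      rw [e1, e2]
      have : (0 : ℝ) < 1 / a := by positivity
      linarith
    · refine hiso.trans ?_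
      have e1 : (n : ℝ) * (k * ρ) = n / (n + 1) * (1 / (8 * a ^ 2)) := by
        rw [hρ]; field_simp
      rw [e1]
      have h1 : (n : ℝ) / (n + 1) ≤ 1 := by
        rw [div_le_one (by positivity)]; linarith
      have h2 : (0 : ℝ) < 1 / (8 * a ^ 2) := by positivity
      nlinarith

end Pool.Agent.Results.MP_cba12a_lc.UnateReadK
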