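import Pool.Agent.H.MP_cba12a_lc.Par7
import Pool.Agent.H.MP_cba12a_lc.Drop7
import Pool.Agent.H.MP_cba12a_lc.Share7Defs
import Pool.Agent.H.MP_cba12a_lc.Num6
import Pool.Agent.H.MP_cba12a_lc.Num7

/-!
# Unate DNF formulas in which any two terms share at most `t` variables, for constant `t`

For every constant `t`, one algorithm learns, from uniform random labelled examples only, all
unate (for example monotone) DNF formulas with any number of terms in which any two terms have at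
most `t` variables in common, in time polynomial in `n` and `(1 / ε) ^ log (1 / ε)`; the time is
polynomial in `n` whenever `1 / ε` is at most `2 ^ sqrt (log n)`.
-/

namespace Pool.Agent.Results.MP_cba12a_lc.UnateShareDNF

open Pool.Agent.H.MP_5be563_lc.PT Pool.Agent.H.MP_cba12a_lc

@[fun_prop]
theorem poly_pow {α : Type} [Enc α] {f : α → ℕ} (hf : Poly f) (k : ℕ) :
    Poly (fun a => f a ^ k) := by
  induction k with
  | zero =>
    simp only [pow_zero]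
    fun_prop
  | succ k ih =>
    simp only [pow_succ]
    fun_prop

/-- bound on the sizes of all lists, where `T = a ^ log a` -/
def NN7 (t c n a T : ℕ) : ℕ := (2 * n + 1) ^ (kk t + t + 1) * WW t a * (c * (n + 1) * a * T) ^ c

/-- the learner, with the value `T = a ^ log a` as a further argument -/
def learnT (t c : ℕ) (p : (ℕ × ℕ × Samples) × ℕ) : List (List Lit) :=
  core7 (16 * p.1.2.1) (16 * p.1.2.1) (B7 t p.1.1 p.1.2.1 (L7 t p.1.1 p.1.2.1))
    (2 * B7 t p.1.1 p.1.2.1 (L7 t p.1.1 p.1.2.1))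
    (NN7 t c p.1.1 p.1.2.1 p.2) (t + 1) (JJ6 t p.1.2.1)
    (ell7 t p.1.2.1 (L7 t p.1.1 p.1.2.1)) (kk t) (256 * p.1.2.1)
    (Th7 t p.1.2.1 (L7 t p.1.1 p.1.2.1)) p.1.1 p.1.2.2

section

variable {α : Type} [Enc α]

@[fun_prop]
theorem poly_WW (t : ℕ) {a : α → ℕ} (ha : Poly a) : Poly (fun p => WW t (a p)) := by
  unfold WW
  fun_prop

@[fun_prop]
theorem poly_Lam7 (t : ℕ) {a L : α → ℕ} (ha : Poly a) (hL : Poly L) :
    Poly (fun p => Lam7 t (a p) (L p)) := by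
  unfold Lam7
  fun_prop

@[fun_prop]
theorem poly_Del7 (t : ℕ) {a L : α → ℕ} (ha : Poly a) (hL : Poly L) :
    Poly (fun p => Del7 t (a p) (L p)) := by
  unfold Del7
  fun_prop

@[fun_prop]
theorem poly_E7 (t : ℕ) {a L : α → ℕ} (ha : Poly a) (hL : Poly L) :
    Poly (fun p => E7 t (a p) (L p)) := by
  unfold E7
  fun_prop

@[fun_prop]
theorem poly_Z7 (t : ℕ) {a L : α → ℕ} (ha : Poly a) (hL : Poly L) :
    Poly (fun p => Z7 t (a p) (L p)) := by
  unfold Z7 NS7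
  fun_prop

@[fun_prop]
theorem poly_M7 (t : ℕ) {n a L : α → ℕ} (hn : Poly n) (ha : Poly a) (hL : Poly L) :
    Poly (fun p => M7 t (n p) (a p) (L p)) := by
  unfold M7
  fun_prop

@[fun_prop]
theorem poly_B7 (t : ℕ) {n a L : α → ℕ} (hn : Poly n) (ha : Poly a) (hL : Poly L) :
    Poly (fun p => B7 t (n p) (a p) (L p)) := by
  unfold B7
  fun_prop

@[fun_prop]
theorem poly_Th7 (t : ℕ) {a L : α → ℕ} (ha : Poly a) (hL : Poly L) :
    Poly (fun p => Th7 t (a p) (L p)) := by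
  unfold Th7
  fun_prop

@[fun_prop]
theorem poly_ell7 (t : ℕ) {a L : α → ℕ} (ha : Poly a) (hL : Poly L) :
    Poly (fun p => ell7 t (a p) (L p)) := by
  unfold ell7
  fun_prop

@[fun_prop]
theorem poly_L7 (t : ℕ) {n a : α → ℕ} (hn : Poly n) (ha : Poly a) :
    Poly (fun p => L7 t (n p) (a p)) := by
  unfold L7
  fun_prop

end

theorem poly_learnT (t c : ℕ) : Poly (learnT t c) := by
  unfold learnT
  have hN : Poly (fun p : (ℕ × ℕ × Samples) × ℕ => NN7 t c p.1.1 p.1.2.1 p.2) := by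
    unfold NN7
    fun_prop
  have hJ : Poly (fun p : (ℕ × ℕ × Samples) × ℕ => JJ6 t p.1.2.1) := by
    unfold JJ6
    fun_prop
  exact poly_core7 (kk t) (by fun_prop) (by fun_prop) (by fun_prop) (by fun_prop) hN
    (by fun_prop) hJ (by fun_prop) (by fun_prop) (by fun_prop) (by fun_prop) (by fun_prop)

/-- the learner -/
def learn (t c : ℕ) (p : ℕ × ℕ × Samples) : List (List Lit) :=
  learnT t c (p, p.2.1 ^ Nat.clog 2 p.2.1)

open Polynomial in
/-- the polynomial for `Lam7` -/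
noncomputable def LamP (t : ℕ) (A : Polynomial ℕ) : Polynomial ℕ :=
  (96 * X * A) ^ ((t + 2) * (t + 1) + 1)

open Polynomial in
/-- the polynomial for `Del7` -/
noncomputable def DelP (t : ℕ) (A : Polynomial ℕ) : Polynomial ℕ :=
  LamP t A * (2 ^ 16 * X ^ 2 * C (kk t) ^ (t + 2) * 2 ^ (t * (t + 2) * (t + 3)) * 2 ^ (t + 7) * A)

open Polynomial in
/-- the polynomial for `E7` -/
noncomputable def EP (t : ℕ) (A : Polynomial ℕ) : Polynomial ℕ :=
  2 * (LamP t A * DelP t A ^ (t + 1))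

open Polynomial in
/-- the polynomial for `M7` -/
noncomputable def MP (t : ℕ) (A : Polynomial ℕ) : Polynomial ℕ :=
  2 ^ (kk t + 30) * X ^ 3 * (32 * X) ^ ((t + 1) * 2 ^ (t + 1)) *
    ((X + 1) ^ (t + 1) * (2 ^ 10 * EP t A * (EP t A * (96 * X * A) ^ (t + 1))))

open Polynomial in
/-- the polynomial for `LB7` -/
noncomputable def LP (t : ℕ) : Polynomial ℕ :=
  2 * C (ee t) * (2 * MP t 1 * (X + 1) ^ (t + 1) * (2 * C (ee t)) ^ ee t)

open Polynomial in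
/-- the polynomial for the number of samples -/
noncomputable def QP (t : ℕ) : Polynomial ℕ := 4 * MP t (LP t) ^ 3 * (2 * X + 2)

theorem eval_MP (t x : ℕ) (A : Polynomial ℕ) : (MP t A).eval x = M7 t x x (A.eval x) := by
  unfold MP EP DelP LamP M7 Z7 NS7 E7 Del7 Lam7 WW
  simp

theorem eval_LP (t x : ℕ) : (LP t).eval x = LB7 t x := by
  unfold LP LB7
  have h := eval_MP t x 1
  simp only [Polynomial.eval_mul, Polynomial.eval_pow, Polynomial.eval_add, Polynomial.eval_X,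
    Polynomial.eval_C, Polynomial.eval_one, h, Polynomial.eval_ofNat]

theorem eval_QP (t x : ℕ) : (QP t).eval x = 4 * M7 t x x (LB7 t x) ^ 3 * (2 * x + 2) := by
  unfold QP
  rw [← eval_LP, ← eval_MP]
  simp

theorem main (t c : ℕ) (hc : ∀ n a : ℕ, 1 ≤ a →
    (8 * Th7 t a (L7 t n a) ^ 2 + 1) ^ ell7 t a (L7 t n a) ≤
      (c * (n + 1) * a * a ^ Nat.clog 2 a) ^ c)
    (n a b m : ℕ) (f g : (Fin n → Bool) → Bool) (ha : 1 ≤ a)
    (hb : 1 ≤ b) (hu : Unate g) (hg : PairDNF t g)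
    (hfg : (QP t).eval (n + a) * (Finset.univ.filter fun x => f x ≠ g x).card ≤ 2 ^ n)
    (hm : (QP t).eval (n + a + Nat.clog 2 b) ≤ m) :
    (1 - 1 / (b : ℝ)) * ((2 : ℝ) ^ n) ^ m ≤
      ((Finset.univ.filter fun ω : Fin m → Fin n → Bool =>
        err f (learn t c (n, a, smp f ω)) ≤ 1 / (a : ℝ)).card : ℝ) := by
  classical
  have ha' : (1 : ℝ) ≤ a := by exact_mod_cast ha
  have hn0 : (0 : ℝ) ≤ n := by positivity
  obtain ⟨L, hL⟩ : ∃ L, L = L7 t n a := ⟨_, rfl⟩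
  obtain ⟨M, hM⟩ : ∃ M, M = M7 t n a L := ⟨_, rfl⟩
  obtain ⟨W, hW⟩ : ∃ W, W = WW t a := ⟨_, rfl⟩
  obtain ⟨B, hB⟩ : ∃ B, B = B7 t n a L := ⟨_, rfl⟩
  obtain ⟨Z, hZ⟩ : ∃ Z, Z = Z7 t a L := ⟨_, rfl⟩
  obtain ⟨J, hJ⟩ : ∃ J, J = JJ6 t a := ⟨_, rfl⟩
  obtain ⟨k, hk⟩ : ∃ k, k = kk t := ⟨_, rfl⟩
  obtain ⟨V, hV⟩ : ∃ V, V = (n + 1) ^ (t + 1) := ⟨_, rfl⟩
  have hV1 : 1 ≤ V := by rw [hV]; exact Nat.one_le_pow _ _ (by omega)
  have hW1 : 1 ≤ W := by rw [hW]; unfold WW; exact Nat.one_le_pow _ _ (by omega)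
  have hL0 : 1 ≤ L := by
    have h1 := L7_spec t n a
    have h2 : 1 ≤ M7 t n a 1 := by
      have h3 : 0 < M7 t n a 1 := by
        unfold M7 Z7 NS7 E7 Del7 Lam7 WW kk
        positivity
      exact h3
    rw [hL]
    unfold L7
    refine Nat.mul_pos (Nat.mul_pos (by norm_num) (one_le_ee t)) ?_
    refine Nat.clog_pos (by norm_num) ?_
    have h4 : 1 ≤ (n + 1) ^ (t + 1) * (2 * ee t) ^ ee t :=
      Nat.mul_pos (Nat.pow_pos (by omega)) (Nat.pow_pos (by have := one_le_ee t; omega))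
    calc 2 ≤ 2 * (M7 t n a 1 * ((n + 1) ^ (t + 1) * (2 * ee t) ^ ee t)) := by
          have := Nat.mul_pos h2 h4
          omega
      _ = _ := by ring
  have hZ1 : 1 ≤ Z := by
    have : 0 < Z := by
      rw [hZ]
      unfold Z7 NS7 E7 Del7 Lam7 kk
      positivity
    exact this
  have hMe : M = 2 ^ (k + 30) * a ^ 3 * W * (V * Z) := by rw [hM, hW, hV, hk, hZ]; rfl
  have hBe : B = 16 * a * W * (V * Z) := by rw [hB, hW, hV, hZ]; rfl
  have hWe : W = (32 * a) ^ ((t + 1) * 2 ^ (t + 1)) := hW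
  have hJe : J = 2 ^ (t + 1) * Nat.clog 2 (16 * a) := hJ
  have hke : k = t * (t + 1) + 1 := hk
  have hMeR : (M : ℝ) = 2 ^ (k + 30) * a ^ 3 * W * (V * Z) := by rw [hMe]; push_cast; ring
  have hBeR : (B : ℝ) = 16 * a * W * (V * Z) := by rw [hBe]; push_cast; ring
  have hVZ : 1 ≤ V * Z := Nat.mul_pos hV1 hZ1
  have hZ1' : (1 : ℝ) ≤ Z := by exact_mod_cast hZ1
  have hVZ' : (1 : ℝ) ≤ (V : ℝ) * Z := by exact_mod_cast hVZ
  have hW1' : (1 : ℝ) ≤ W := by exact_mod_cast hW1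
  have hV1' : (1 : ℝ) ≤ V := by exact_mod_cast hV1
  have hRM : 2 * B + 2 ≤ M := by rw [hBe, hMe]; exact num6_RM ha hW1 hVZ
  have hM0 : 0 < M := by omega
  have hB0 : 0 < B := by rw [hBe]; positivity
  have hM0' : (0 : ℝ) < M := by exact_mod_cast hM0
  have hB0' : (0 : ℝ) < B := by exact_mod_cast hB0
  have htk : t ≤ k := by
    rw [hke]
    exact (Nat.le_mul_of_pos_right t (Nat.succ_pos t)).trans (Nat.le_succ _)
  rw [eval_QP] at hfg hm
  have hm1 : 4 * M ^ 3 * (2 * n + 2 + Nat.clog 2 b) ≤ m := by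
    refine le_trans ?_ hm
    have h1 : M ≤ M7 t (n + a + Nat.clog 2 b) (n + a + Nat.clog 2 b)
        (LB7 t (n + a + Nat.clog 2 b)) := by
      rw [hM, hL]; exact M7_mono (by omega) (by omega) (L7_le (by omega) (by omega))
    exact Nat.mul_le_mul (Nat.mul_le_mul_left _ (Nat.pow_le_pow_left h1 3)) (by omega)
  have hm0 : 0 < m := by
    have h1 : 0 < 4 * M ^ 3 := by
      have := Nat.pow_pos (n := 3) hM0
      omega
    have h2 := Nat.mul_pos h1 (show 0 < 2 * n + 2 + Nat.clog 2 b by omega)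
    omega
  obtain ⟨τ, hτ⟩ : ∃ τ : ℝ, τ = 1 / M := ⟨_, rfl⟩
  have hτ0 : 0 < τ := by rw [hτ]; positivity
  -- the target
  obtain ⟨o, ho⟩ := exists_orient hu
  obtain ⟨F0, hgF0, hshare0⟩ := hg
  obtain ⟨F, hgF, hshare, hor⟩ := orient7 (t := t) ho (F := F0) hgF0 hshare0
  have hLpow : 2 * M * V ≤ 2 ^ L := by rw [hM, hV, hL]; exact L7_spec t n a
  have hLk : k + 30 ≤ L := by
    refine (Nat.pow_le_pow_iff_right (a := 2) (by norm_num)).1 (le_trans ?_ hLpow)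
    rw [hMe]
    have h1 : 1 ≤ 2 * (a ^ 3 * W * (V * Z)) * V := by
      have : 0 < 2 * (a ^ 3 * W * (V * Z)) * V := by positivity
      exact this
    calc 2 ^ (k + 30) ≤ 2 ^ (k + 30) * (2 * (a ^ 3 * W * (V * Z)) * V) :=
          Nat.le_mul_of_pos_right _ h1
      _ = _ := by ring
  obtain ⟨g', F', hF', hgF', hlen', hdst'⟩ := drop_long7 (M := 2 * M) (L := L) (t := t)
    (by omega) hgF hshare (by rw [← hV]; exact hLpow) (by omega)
  have hdst0 : dst f g ≤ 1 / ((2 * M : ℕ) : ℝ) := by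
    unfold dst
    rw [div_le_div_iff₀ (by positivity) (by positivity), one_mul]
    obtain ⟨M', hM'⟩ : ∃ M', M' = M7 t (n + a) (n + a) (LB7 t (n + a)) := ⟨_, rfl⟩
    have h1 : M ≤ M' := by
      rw [hM, hM', hL]; exact M7_mono (by omega) (by omega) (L7_le (by omega) (by omega))
    rw [← hM'] at hfg
    have h2 : 2 * M ≤ 4 * M' ^ 3 * (2 * (n + a) + 2) := by
      calc 2 * M ≤ 2 * M' := Nat.mul_le_mul_left _ h1
        _ ≤ 2 * M' ^ 3 := Nat.mul_le_mul_left _ (Nat.le_self_pow (by norm_num) _)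
        _ ≤ 4 * M' ^ 3 := Nat.mul_le_mul_right _ (by norm_num)
        _ ≤ _ := Nat.le_mul_of_pos_right _ (by omega)
    have h3 := (Nat.mul_le_mul_right (Finset.univ.filter fun x => f x ≠ g x).card h2).trans hfg
    have h4 : ((2 * M : ℕ) : ℝ) * ((Finset.univ.filter fun x => f x ≠ g x).card : ℝ) ≤
        2 ^ n := by exact_mod_cast h3
    linarith
  have hdst : dst f g' ≤ τ := by
    refine (dst_triangle f g g').trans ?_
    have h1 : (1 : ℝ) / ((2 * M : ℕ) : ℝ) = 1 / 2 * τ := by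
      rw [hτ]; push_cast; field_simp
    rw [h1] at hdst0 hdst'
    linarith
  have hshare' : ∀ T ∈ F', ∀ T' ∈ F', T ≠ T' → (vs T ∩ vs T').card ≤ t :=
    fun T hT T' hT' => hshare T (hF' hT) T' (hF' hT')
  have hmm : (4 : ℝ) * (M : ℝ) ^ 3 * (2 * n + 2 + Nat.clog 2 b) ≤ m := by exact_mod_cast hm1
  have hRM' : (2 * (B : ℝ) + 2) ≤ M := by exact_mod_cast hRM
  clear hfg hm
  refine rep_of_large f (2 * B) b hb τ hτ0 ?_ ?_ _ ?_
  · rw [hτ, div_le_one hM0']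
    exact_mod_cast hM0
  · rw [hτ]
    push_cast
    exact num6_m hM0' hRM' hB0'.le hn0 (by positivity) hmm
  intro ω hω
  rw [← mu_errE_eq7]
  have ho' : Up o g' := up7 hgF' fun T hT => hor T (hF' hT)
  obtain ⟨Λ, hΛ⟩ : ∃ Λ, Λ = Lam7 t a L := ⟨_, rfl⟩
  obtain ⟨Δ, hΔ⟩ : ∃ Δ, Δ = Del7 t a L := ⟨_, rfl⟩
  obtain ⟨E, hE⟩ : ∃ E, E = E7 t a L := ⟨_, rfl⟩
  obtain ⟨NS, hNS⟩ : ∃ NS, NS = NS7 t a L := ⟨_, rfl⟩
  obtain ⟨Θ, hΘ⟩ : ∃ Θ, Θ = Th7 t a L := ⟨_, rfl⟩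
  obtain ⟨L1, hL1⟩ : ∃ L1, L1 = Nat.clog 2 (16 * a * V) := ⟨_, rfl⟩
  obtain ⟨N, hN⟩ : ∃ N, N = NN7 t c n a (a ^ Nat.clog 2 a) := ⟨_, rfl⟩
  obtain ⟨ℓ0, hℓ0⟩ : ∃ ℓ0, ℓ0 = ell7 t a L := ⟨_, rfl⟩
  have hlearn : learn t c (n, a, smp f ω) =
      core7 (16 * a) (16 * a) B (2 * B) N (t + 1) J ℓ0 k (256 * a) Θ n (smp f ω) := by
    rw [hB, hN, hJ, hk, hℓ0, hΘ, hL]; rfl
  rw [hlearn]
  have hcc := hc n a ha
  rw [← hL, ← hΘ, ← hℓ0] at hcc
  have hL0' : (1 : ℝ) ≤ L := by exact_mod_cast hL0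
  have hk1 : 1 ≤ k := by omega
  have hk1' : (1 : ℝ) ≤ k := by exact_mod_cast hk1
  have hΛe : Λ = (96 * a * L) ^ ((t + 2) * (t + 1) + 1) := by rw [hΛ]; rfl
  have hΔe : Δ = Λ * (2 ^ 16 * a ^ 2 * k ^ (t + 2) * 2 ^ (t * (t + 2) * (t + 3)) *
    2 ^ (t + 7) * L) := by rw [hΔ, hΛ, hk]; rfl
  have hEe : E = 2 * (Λ * Δ ^ (t + 1)) := by rw [hE, hΛ, hΔ]; rfl
  have hNSe : NS = E * (96 * a * L) ^ (t + 1) := by rw [hNS, hE]; rfl
  have hZe : Z = 2 ^ 10 * E * NS := by rw [hZ, hE, hNS]; rfl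
  have hΘe : Θ = a ^ 2 * W * Z := by rw [hΘ, hW, hZ]; rfl
  have hℓe : ℓ0 = Nat.clog 2 (Λ * Δ ^ (t + 1)) := by rw [hℓ0, hΛ, hΔ]; rfl
  have hNe : N = (2 * n + 1) ^ (k + t + 1) * W * (c * (n + 1) * a * a ^ Nat.clog 2 a) ^ c := by
    rw [hN, hk, hW]; rfl
  clear hM hW hB hL hJ hk hΛ hΔ hN hℓ0 hlearn hE hNS hZ hΘ hc
  have hΛ0 : 0 < Λ := by rw [hΛe]; positivity
  have hΔ0 : 0 < Δ := by rw [hΔe]; positivity
  have hΛ0' : (0 : ℝ) < Λ := by exact_mod_cast hΛ0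
  have hΛ1' : (1 : ℝ) ≤ Λ := by exact_mod_cast hΛ0
  have hΔ0' : (0 : ℝ) < Δ := by exact_mod_cast hΔ0
  have hΛR : (Λ : ℝ) = (96 * a * L) ^ ((t + 2) * (t + 1) + 1) := by
    rw [hΛe]; push_cast; ring
  have hΔR : (Δ : ℝ) = Λ * (2 ^ 16 * a ^ 2 * k ^ (t + 2) * 2 ^ (t * (t + 2) * (t + 3)) *
    2 ^ (t + 7) * L) := by rw [hΔe]; push_cast; ring
  have hclog16 : 2 ^ Nat.clog 2 (16 * a) ≤ 32 * a := by
    have := two_pow_clog_le (16 * a) (by omega)
    omega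
  have hWJ2 : 2 ^ ((t + 1) * J) ≤ W := by
    have h1 : 2 ^ ((t + 1) * J) = (2 ^ Nat.clog 2 (16 * a)) ^ ((t + 1) * 2 ^ (t + 1)) := by
      rw [← pow_mul]
      congr 1
      rw [hJe]
      ring
    rw [h1, hWe]
    exact Nat.pow_le_pow_left hclog16 _
  have hWJ1 : (t + 2) ^ J ≤ W := by
    refine le_trans ?_ hWJ2
    rw [pow_mul]
    exact Nat.pow_le_pow_left (two_add_le_pow7 t) J
  have h2n : 1 ≤ (2 * n + 1) ^ (k + t + 1) := Nat.one_le_pow _ _ (by omega)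
  have hT2 : 1 ≤ (c * (n + 1) * a * a ^ Nat.clog 2 a) ^ c :=
    le_trans (Nat.one_le_pow _ _ (by omega)) hcc
  have hWN : W ≤ N := by
    rw [hNe]
    calc W ≤ (2 * n + 1) ^ (k + t + 1) * W := Nat.le_mul_of_pos_left _ h2n
      _ ≤ _ := Nat.le_mul_of_pos_right _ hT2
  have hpN : ∀ q ≤ k + t + 1, (2 * n + 1) ^ q ≤ N := by
    intro q hq
    rw [hNe]
    calc (2 * n + 1) ^ q ≤ (2 * n + 1) ^ (k + t + 1) := Nat.pow_le_pow_right (by omega) hq
      _ ≤ (2 * n + 1) ^ (k + t + 1) * W := Nat.le_mul_of_pos_right _ hW1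
      _ ≤ _ := Nat.le_mul_of_pos_right _ hT2
  have hN3 : (8 * Θ ^ 2 + 1) ^ ℓ0 ≤ N := by
    rw [hNe]
    exact hcc.trans (Nat.le_mul_of_pos_left _ (Nat.mul_pos h2n hW1))
  have hVn : (n : ℝ) ^ (t + 1) ≤ V := by
    rw [hV]; push_cast
    exact pow_le_pow_left₀ hn0 (by linarith) _
  have h2L1 : (2 : ℝ) ^ L1 ≤ 32 * a * V := by
    have h1 := two_pow_clog_le (16 * a * V) (Nat.succ_le_of_lt (by positivity))
    rw [← hL1] at h1
    have h2 : ((2 ^ L1 : ℕ) : ℝ) ≤ ((2 * (16 * a * V) : ℕ) : ℝ) := by exact_mod_cast h1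
    push_cast at h2
    linarith
  have h2L1' : 16 * a * V ≤ (2 : ℝ) ^ L1 := by
    have h1 : 16 * a * V ≤ 2 ^ L1 := by rw [hL1]; exact Nat.le_pow_clog (by norm_num) _
    exact_mod_cast h1
  have hKt : (1 : ℝ) ≤ (k : ℝ) ^ (t + 2) := one_le_pow₀ hk1'
  have hPt : (1 : ℝ) ≤ 2 ^ (t * (t + 2) * (t + 3)) := one_le_pow₀ (by norm_num)
  have h1pow : Λ * Δ ^ (t + 1) ≤ 2 ^ ℓ0 := by rw [hℓe]; exact Nat.le_pow_clog (by norm_num) _
  have hE2 : 2 ^ ℓ0 ≤ E := by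
    rw [hℓe, hEe]
    exact two_pow_clog_le _ (Nat.mul_pos hΛ0 (Nat.pow_pos hΔ0))
  have hE2' : (2 : ℝ) ^ ℓ0 ≤ E := by exact_mod_cast hE2
  have hE1 : 1 ≤ E := le_trans Nat.one_le_two_pow hE2
  have hE1' : (1 : ℝ) ≤ E := by exact_mod_cast hE1
  have hNS1 : 1 ≤ NS := by
    rw [hNSe]
    exact Nat.mul_pos hE1 (Nat.pow_pos (by positivity))
  have hNS1' : (1 : ℝ) ≤ NS := by exact_mod_cast hNS1
  have hΘ0 : 0 < Θ := by
    rw [hΘe]
    exact Nat.mul_pos (Nat.mul_pos (by positivity) hW1) hZ1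
  have hΘR : (Θ : ℝ) = a ^ 2 * W * Z := by rw [hΘe]; push_cast; ring
  have hZR : (Z : ℝ) = 2 ^ 10 * E * NS := by rw [hZe]; push_cast; ring
  refine core7_error (L := L) (L1 := L1) (ℓ0 := ℓ0) (W := W) (δ := 1 / Δ) (NS := NS)
    (lam := 1 / Λ) (ν := 1 / (2 ^ 16 * a ^ 2)) hm0 ha hτ0 hgF' hlen' hL0 hshare' hdst hω
    (hpN _ (by omega)) (hpN _ (by omega)) hN3 ho' hΘ0 ?_ (hWJ1.trans hWN) hWJ1 hWJ2 ?_ hB0 ?_ hke
    (by positivity) (by positivity) ?_ ?_ le_rfl ?_ ?_ ?_ ?_ ?_ ?_ ?_ ?_ ?_ ?_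
  · -- hτΘ
    rw [hτ, hMeR, hΘR]
    exact num7_Th ha' hW1' hV1' hZ1'
  · -- unfinished part
    have h1 : (1 / 2 : ℝ) ^ (t + 1) = 1 / ((2 ^ (t + 1) : ℕ) : ℝ) := by
      push_cast
      rw [one_div_pow]
    rw [h1, hJe]
    refine (half_pow_le7 (2 ^ (t + 1)) Nat.one_le_two_pow (Nat.clog 2 (16 * a))).trans ?_
    rw [one_div_pow]
    refine one_div_le_one_div_of_le (by positivity) ?_
    have h3 : 16 * a ≤ 2 ^ Nat.clog 2 (16 * a) := Nat.le_pow_clog (by norm_num) _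
    exact_mod_cast h3
  · -- rounds
    push_cast
    rw [hτ, hMeR, hBeR]
    exact num6_rounds ha' hW1' hVZ'
  · -- hδL
    rw [hΔR]
    exact num6_D ha' hΛ1' hKt hPt (one_le_pow₀ (by norm_num)) (by
      rw [show t + 7 = (t + 1) + 6 by ring, pow_add]; norm_num) hL0'
  · -- hν
    rw [hΔR]
    exact num6_nu ha' hΛ1' hKt hPt (one_le_pow₀ (by norm_num)) hL0'
  · -- hDν
    push_cast
    refine le_of_eq ?_
    field_simp
    norm_num
  · -- hDτ
    push_cast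
    rw [hτ, hMeR]
    refine num6_tau ha' hW1' hVZ' (h2L1.trans ?_)
    calc 32 * (a : ℝ) * V = 32 * a * (V * 1) := by ring
      _ ≤ 32 * a * (V * Z) := by gcongr
  · -- hrich
    rw [hΛR]
    exact num7_rich ha' hL0'
  · -- hℓ
    have h2 : (Λ : ℝ) * (Δ : ℝ) ^ (t + 1) ≤ 2 ^ ℓ0 := by exact_mod_cast h1pow
    rw [one_div_pow, one_div_pow, one_div_mul_one_div]
    exact one_div_le_one_div_of_le (by positivity) h2
  · -- hℓk
    refine (Nat.pow_le_pow_iff_right (a := 2) (by norm_num)).1 (le_trans ?_ h1pow)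
    calc 2 ^ k ≤ Δ := by
          rw [hΔe]
          exact num6_k hke ha (Nat.one_le_pow _ _ (by omega)) rfl hL0 hΛ0
      _ ≤ Δ ^ (t + 1) := Nat.le_self_pow (by omega) _
      _ ≤ _ := Nat.le_mul_of_pos_left _ hΛ0
  · -- hL1
    rw [one_div_pow, mul_one_div, div_le_div_iff₀ (by positivity) (by positivity), one_mul]
    calc (n : ℝ) ^ (t + 1) * (16 * a) ≤ V * (16 * a) :=
          mul_le_mul_of_nonneg_right hVn (by positivity)
      _ = 16 * a * V := by ring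
      _ ≤ _ := h2L1'
  · -- hτK
    rw [hτ, hMeR]
    refine num6_K ha' hW1' hVZ' ?_
    rw [pow_succ, mul_comm]
    have : (2 : ℝ) ^ t ≤ 2 ^ k := pow_le_pow_right₀ (by norm_num) htk
    linarith
  · -- herr
    push_cast
    rw [hBeR]
    refine num6_err ha' hW1' hVZ' (hVn.trans ?_) (by rw [hτ, hMeR])
    calc (V : ℝ) = V * 1 := by ring
      _ ≤ V * Z := by gcongr
  · -- hNS
    rw [hNSe]
    push_cast
    exact mul_le_mul_of_nonneg_right hE2' (by positivity)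
  · -- short terms
    exact num7_sh (k := k) ha' hW1' hV1' hE1' hNS1' hE2' hZR (by rw [hτ, hMeR]) hBeR hΘR

/-- **For every constant `t`, unate DNF formulas of which any two terms have at most `t` variables
in common are learnable from uniform random examples in time polynomial in `n` and
`(1 / ε) ^ log (1 / ε)`.**

`learn (n, a, S)` is the hypothesis (a DNF formula) found from the labelled sample `S` with
accuracy parameter `ε = 1 / a`, in time polynomial in `a ^ ⌈log₂ a⌉` and the length of the input.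
The target `f` is a unate function `g` computed by a DNF formula, with any number of terms of any
lengths, in which any two different terms have at most `t` variables in common, or more generally
differs from such a `g` on at most a fraction `1 / Q (n + a)` of the cube. The number of samples is
polynomial in `n`, `a` and `log b`. -/
theorem result (t : ℕ) :
    ∃ (learn : ℕ × ℕ × Samples → List (List Lit)) (P Q : Polynomial ℕ),
      ComputedInTime learn (fun i => P.eval (i.2.1 ^ Nat.clog 2 i.2.1 + (code i).length)) ∧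
      ∀ (n a b m : ℕ) (f g : (Fin n → Bool) → Bool), 1 ≤ a → 1 ≤ b → Unate g → PairDNF t g →
        Q.eval (n + a) * (Finset.univ.filter fun x => f x ≠ g x).card ≤ 2 ^ n →
        Q.eval (n + a + Nat.clog 2 b) ≤ m →
        (1 - 1 / (b : ℝ)) * ((2 : ℝ) ^ n) ^ m ≤
          ((Finset.univ.filter fun ω : Fin m → Fin n → Bool =>
            err f (learn (n, a, smp f ω)) ≤ 1 / (a : ℝ)).card : ℝ) := by
  obtain ⟨c, hc⟩ := pow_short7 t
  obtain ⟨P, hP⟩ := computedInTime_of_run (f := learn t c)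
    (g := fun p => p.2.1 ^ Nat.clog 2 p.2.1)
    (run_search (g := fun p : ℕ × ℕ × Samples => p.2.1 ^ Nat.clog 2 p.2.1)
      (poly_powTest (by fun_prop) (by fun_prop) (by fun_prop)) (poly_learnT t c))
  refine ⟨learn t c, P, QP t, hP, ?_⟩
  intro n a b m f g ha hb hu hg hfg hm
  exact main t c hc n a b m f g ha hb hu hg hfg hm

end Pool.Agent.Results.MP_cba12a_lc.UnateShareDNF
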